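import Pool.Agent.J4H58.XC.Stm6

/-!
# XC, piece MOM: exponential decay of log-concave densities

`lev_convex`, `bdd_of_vol`, `lwd`, `exp_int` are copied from `N438/KM/LWC.lean`, `N558/KM/LSE.lean` (the compactness
hypothesis of `lwd` replaced by boundedness).
-/

set_option autoImplicit false

namespace Pool.Agent.J4H74.XC.Mom

open MeasureTheory Set Filter Topology Metric

section

variable {n : ℕ} {w : EuclideanSpace ℝ (Fin n) → ℝ}

/-- superlevel sets of log-concave functions are convex -/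
theorem lev_convex (h0 : ∀ x, 0 ≤ w x) (hlc : ∀ x y, ∀ t : ℝ, 0 < t → t < 1 →
    w x ^ (1 - t) * w y ^ t ≤ w ((1 - t) • x + t • y)) {c : ℝ} (hc : 0 < c) :
    Convex ℝ {x | c ≤ w x} := by
  intro x hx y hy a b ha hb hab
  change c ≤ w x at hx
  change c ≤ w y at hy
  change c ≤ w (a • x + b • y)
  have ha' : a = 1 - b := by linarith
  subst ha'
  rcases eq_or_lt_of_le hb with hb0 | hb0
  · rw [← hb0]; simpa using hx
  rcases eq_or_lt_of_le ha with ha0 | ha0
  · have : b = 1 := by linarith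
    rw [this]; simpa using hy
  refine le_trans ?_ (hlc x y b hb0 (by linarith))
  calc c = c ^ (1 - b) * c ^ b := by
        rw [← Real.rpow_add hc, sub_add_cancel, Real.rpow_one]
    _ ≤ _ := mul_le_mul (Real.rpow_le_rpow hc.le hx ha) (Real.rpow_le_rpow hc.le hy hb)
        (Real.rpow_nonneg hc.le _) (Real.rpow_nonneg (h0 x) _)

/-- a convex set of finite volume which contains a ball is bounded -/
theorem bdd_of_vol {A : Set (EuclideanSpace ℝ (Fin n))} (hA : Convex ℝ A)
    (hv : volume A < ⊤) {p : EuclideanSpace ℝ (Fin n)} {r : ℝ} (hr : 0 < r) (hb : ball p r ⊆ A) :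
    Bornology.IsBounded A := by
  have hμ : 0 < volume (ball (0 : EuclideanSpace ℝ (Fin n)) (r / 2)) := measure_ball_pos _ _ (by linarith)
  obtain ⟨N, hN⟩ := ENNReal.exists_nat_mul_gt hμ.ne' hv.ne
  rw [isBounded_iff_subset_closedBall p]
  refine ⟨2 * r * (N + 1), fun x hx => ?_⟩
  rw [mem_closedBall]
  by_contra hcon
  push Not at hcon
  have hρ : 0 < dist x p := lt_of_le_of_lt (by positivity) hcon
  -- the centres
  obtain ⟨y, hy⟩ : ∃ y : ℕ → EuclideanSpace ℝ (Fin n), ∀ i, y i = p + ((i : ℝ) / (2 * (N + 1))) • (x - p) :=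
    ⟨fun i => p + ((i : ℝ) / (2 * (N + 1))) • (x - p), fun i => rfl⟩
  have hN0 : (0 : ℝ) < 2 * ((N : ℝ) + 1) := by positivity
  have hsub : ∀ i ∈ Finset.range N, ball (y i) (r / 2) ⊆ A := by
    intro i hi z hz
    rw [Finset.mem_range] at hi
    have hi' : (i : ℝ) < N := by exact_mod_cast hi
    obtain ⟨s, hs⟩ : ∃ s, s = (i : ℝ) / (2 * ((N : ℝ) + 1)) := ⟨_, rfl⟩
    have hs0 : 0 ≤ s := by rw [hs]; positivity
    have hs1 : s < 1 / 2 := by
      rw [hs, div_lt_iff₀ hN0]; linarith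
    have hz' : z = (1 - s) • (p + (1 - s)⁻¹ • (z - y i)) + s • x := by
      have h1 : (1 - s) ≠ 0 := by linarith
      rw [smul_add, smul_smul, mul_inv_cancel₀ h1, one_smul, hy, ← hs]
      module
    rw [hz']
    refine hA (hb ?_) hx (by linarith) hs0 (by ring)
    rw [mem_ball, dist_eq_norm, add_sub_cancel_left, norm_smul, norm_inv, Real.norm_eq_abs,
      abs_of_pos (by linarith : (0 : ℝ) < 1 - s), inv_mul_lt_iff₀ (by linarith)]
    rw [mem_ball, dist_eq_norm] at hz
    nlinarith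
  have hdis : Set.PairwiseDisjoint (Finset.range N : Set ℕ) fun i => ball (y i) (r / 2) := by
    intro i _ j _ hij
    refine ball_disjoint_ball ?_
    have h1 : dist (y i) (y j) = |((i : ℝ) - j)| / (2 * ((N : ℝ) + 1)) * dist x p := by
      rw [dist_eq_norm, hy, hy, add_sub_add_left_eq_sub, ← sub_smul, norm_smul, ← sub_div,
        Real.norm_eq_abs, abs_div, abs_of_pos hN0, dist_eq_norm]
    rw [h1]
    have h2 : (1 : ℝ) ≤ |((i : ℝ) - j)| := by
      have : (1 : ℤ) ≤ |((i : ℤ) - j)| := Int.one_le_abs (by omega)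
      exact_mod_cast this
    have h3 : r ≤ dist x p / (2 * ((N : ℝ) + 1)) := by
      rw [le_div_iff₀ hN0]; linarith
    calc r / 2 + r / 2 = 1 * r := by ring
      _ ≤ |((i : ℝ) - j)| * (dist x p / (2 * ((N : ℝ) + 1))) := by gcongr
      _ = _ := by ring
  have h4 : (N : ENNReal) * volume (ball (0 : EuclideanSpace ℝ (Fin n)) (r / 2)) ≤ volume A := by
    calc (N : ENNReal) * volume (ball (0 : EuclideanSpace ℝ (Fin n)) (r / 2))
        = ∑ i ∈ Finset.range N, volume (ball (y i) (r / 2)) := by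
          rw [Finset.sum_congr rfl fun i _ => Measure.addHaar_ball_center volume (y i) (r / 2),
            Finset.sum_const, Finset.card_range, nsmul_eq_mul]
      _ = volume (⋃ i ∈ Finset.range N, ball (y i) (r / 2)) :=
          (measure_biUnion_finset hdis fun i _ => measurableSet_ball).symm
      _ ≤ volume A := measure_mono (iUnion₂_subset hsub)
  exact absurd hN (not_lt.2 h4)

/-- W0b -/
theorem lwd (h0 : ∀ x, 0 ≤ w x) (hp : 0 < ∫ x, w x)
    (hlc : ∀ x y, ∀ t : ℝ, 0 < t → t < 1 → w x ^ (1 - t) * w y ^ t ≤ w ((1 - t) • x + t • y))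
    (hcomp : ∀ c : ℝ, 0 < c → Bornology.IsBounded {x | c ≤ w x}) {B : ℝ} (hB : ∀ x, w x ≤ B) :
    ∃ C c : ℝ, 0 < C ∧ 0 < c ∧ ∀ x, w x ≤ C * Real.exp (-(c * ‖x‖)) := by
  obtain ⟨x0, hx0⟩ : ∃ x0, 0 < w x0 := by
    by_contra hcon
    push Not at hcon
    exact absurd hp (not_lt.2 (integral_nonpos hcon))
  obtain ⟨a, ha⟩ : ∃ a, a = w x0 := ⟨_, rfl⟩
  rw [← ha] at hx0
  obtain ⟨R0, hR0⟩ := (hcomp (a * Real.exp (-1)) (by positivity)).subset_closedBall x0
  obtain ⟨R, hR⟩ : ∃ R, R = max R0 0 + 1 := ⟨_, rfl⟩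
  have hRpos : 0 < R := by rw [hR]; linarith [le_max_right R0 0]
  have hlow : ∀ y, R ≤ dist y x0 → w y < a * Real.exp (-1) := by
    intro y hy
    by_contra hcon
    push Not at hcon
    have h1 : dist y x0 ≤ R0 := hR0 hcon
    linarith [le_max_left R0 0]
  have hB0 : 0 ≤ B := (h0 x0).trans (hB x0)
  obtain ⟨C', hC'⟩ : ∃ C', C' = a + B * Real.exp 1 := ⟨_, rfl⟩
  have hC0 : 0 < C' := by rw [hC']; positivity
  have hmain : ∀ x, w x ≤ C' * Real.exp (-(dist x x0 / R)) := by
    intro x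
    by_cases hx : dist x x0 ≤ R
    · calc w x ≤ B := hB x
        _ = B * Real.exp 1 * Real.exp (-1) := by
          rw [mul_assoc, ← Real.exp_add]; simp
        _ ≤ C' * Real.exp (-(dist x x0 / R)) := by
          refine mul_le_mul (by rw [hC']; linarith) ?_ (Real.exp_pos _).le hC0.le
          apply Real.exp_le_exp.2
          have : dist x x0 / R ≤ 1 := (div_le_one hRpos).2 hx
          linarith
    · push Not at hx
      have hρ : 0 < dist x x0 := hRpos.trans hx
      obtain ⟨t, ht⟩ : ∃ t, t = R / dist x x0 := ⟨_, rfl⟩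
      have ht0 : 0 < t := by rw [ht]; positivity
      have ht1 : t < 1 := by rw [ht, div_lt_one hρ]; exact hx
      rcases eq_or_lt_of_le (h0 x) with hw | hw
      · rw [← hw]; positivity
      have h1 := hlc x0 x t ht0 ht1
      have h2 : w ((1 - t) • x0 + t • x) < a * Real.exp (-1) := by
        apply hlow
        have h3 : (1 - t) • x0 + t • x - x0 = t • (x - x0) := by module
        rw [dist_eq_norm, h3, norm_smul, Real.norm_eq_abs, abs_of_pos ht0, ← dist_eq_norm, ht,
          div_mul_cancel₀ _ hρ.ne']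
      rw [← ha] at h1
      have h3 := h1.trans_lt h2
      -- take logarithms
      have h4 : (1 - t) * Real.log a + t * Real.log (w x) < Real.log a - 1 := by
        have h5 := Real.log_lt_log (by positivity) h3
        rw [Real.log_mul (by positivity) (by positivity), Real.log_rpow hx0, Real.log_rpow hw,
          Real.log_mul hx0.ne' (by positivity), Real.log_exp] at h5
        linarith
      have h5 : Real.log (w x) < Real.log a - dist x x0 / R := by
        have h6 : t * (Real.log (w x) - Real.log a) < -1 := by linarith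
        have h7 : Real.log (w x) - Real.log a < -1 / t := by
          rw [lt_div_iff₀ ht0]; linarith
        have h8 : -1 / t = -(dist x x0 / R) := by
          rw [ht]; field_simp
        linarith
      calc w x = Real.exp (Real.log (w x)) := (Real.exp_log hw).symm
        _ ≤ Real.exp (Real.log a - dist x x0 / R) := Real.exp_le_exp.2 h5.le
        _ = a * Real.exp (-(dist x x0 / R)) := by
          rw [sub_eq_add_neg, Real.exp_add, Real.exp_log hx0]
        _ ≤ C' * Real.exp (-(dist x x0 / R)) := by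
          refine mul_le_mul_of_nonneg_right ?_ (Real.exp_pos _).le
          rw [hC']
          have : 0 ≤ B * Real.exp 1 := by positivity
          linarith
  refine ⟨C' * Real.exp (‖x0‖ / R), 1 / R, by positivity, by positivity, fun x => ?_⟩
  refine (hmain x).trans ?_
  rw [mul_assoc, ← Real.exp_add]
  refine mul_le_mul_of_nonneg_left (Real.exp_le_exp.2 ?_) hC0.le
  have h1 : ‖x‖ ≤ ‖x0‖ + dist x x0 := by
    have := norm_add_le x0 (x - x0)
    rw [add_sub_cancel] at this
    rwa [dist_eq_norm]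
  have h2 : ‖x‖ / R ≤ (‖x0‖ + dist x x0) / R := div_le_div_of_nonneg_right h1 hRpos.le
  rw [add_div] at h2
  have h3 : 1 / R * ‖x‖ = ‖x‖ / R := by ring
  rw [h3]
  linarith

theorem exp_int (N : ℕ) {b : ℝ} (hb : 0 < b) : Integrable fun x : EuclideanSpace ℝ (Fin N) => Real.exp (-(b * ‖x‖)) := by
  have h1 : Integrable fun x : EuclideanSpace ℝ (Fin N) => (1 + ‖x‖) ^ (-((N : ℝ) + 1)) := by
    refine integrable_one_add_norm ?_
    rw [finrank_euclideanSpace_fin]
    linarith
  obtain ⟨C, hC⟩ : ∃ C : ℝ, C = ((N + 1).factorial : ℝ) / b ^ (N + 1) * Real.exp b := ⟨_, rfl⟩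
  refine Integrable.mono' (h1.const_mul C) (by fun_prop) (Eventually.of_forall fun x => ?_)
  rw [Real.norm_of_nonneg (Real.exp_pos _).le]
  have hs : 0 ≤ ‖x‖ := norm_nonneg x
  have h2 := Real.pow_div_factorial_le_exp (b * (1 + ‖x‖)) (by positivity) (N + 1)
  have h3 : (1 + ‖x‖) ^ (-((N : ℝ) + 1)) = ((1 + ‖x‖) ^ (N + 1))⁻¹ := by
    rw [Real.rpow_neg (by positivity)]
    congr 1
    exact_mod_cast Real.rpow_natCast (1 + ‖x‖) (N + 1)
  rw [h3, hC]
  have h4 : Real.exp (b * (1 + ‖x‖)) = Real.exp b * Real.exp (b * ‖x‖) := by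
    rw [← Real.exp_add]
    congr 1
    ring
  have hf : (0 : ℝ) < (N + 1).factorial := by exact_mod_cast Nat.factorial_pos _
  have hp : 0 < (1 + ‖x‖) ^ (N + 1) := by positivity
  rw [div_le_iff₀ hf, mul_pow, h4] at h2
  rw [Real.exp_neg]
  have he := Real.exp_pos (b * ‖x‖)
  have hbp : 0 < b ^ (N + 1) := by positivity
  rw [inv_le_iff_one_le_mul₀ he]
  have h5 : ((N + 1).factorial : ℝ) / b ^ (N + 1) * Real.exp b * ((1 + ‖x‖) ^ (N + 1))⁻¹ *
      Real.exp (b * ‖x‖) = (Real.exp b * Real.exp (b * ‖x‖) * (N + 1).factorial) /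
        (b ^ (N + 1) * (1 + ‖x‖) ^ (N + 1)) := by
    field_simp
  rw [h5, le_div_iff₀ (by positivity), one_mul]
  exact h2


theorem exists_ball (h0 : ∀ x, 0 ≤ w x) (hp : 0 < ∫ x, w x)
    (hlc : ∀ x y, ∀ t : ℝ, 0 < t → t < 1 → w x ^ (1 - t) * w y ^ t ≤ w ((1 - t) • x + t • y)) :
    ∃ c0 : ℝ, 0 < c0 ∧ ∃ p : EuclideanSpace ℝ (Fin n), ∃ r : ℝ, 0 < r ∧
      ball p r ⊆ {x | c0 ≤ w x} := by
  obtain ⟨c0, hc0, hpos⟩ : ∃ c0 : ℝ, 0 < c0 ∧ volume {x | c0 ≤ w x} ≠ 0 := by
    by_contra hcon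
    push Not at hcon
    have h1 : volume (⋃ k : ℕ, {x | 1 / ((k : ℝ) + 1) ≤ w x}) = 0 :=
      measure_iUnion_null fun k => hcon _ (by positivity)
    have h2 : w =ᵐ[volume] 0 := by
      rw [Filter.EventuallyEq, ae_iff]
      refine measure_mono_null (fun x hx => ?_) h1
      have h3 : 0 < w x := lt_of_le_of_ne (h0 x) (Ne.symm hx)
      obtain ⟨k, hk⟩ := exists_nat_one_div_lt h3
      exact mem_iUnion.2 ⟨k, hk.le⟩
    rw [integral_eq_zero_of_ae h2] at hp
    exact lt_irrefl _ hp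
  have hcv : Convex ℝ {x | c0 ≤ w x} := lev_convex h0 hlc hc0
  have hne : (interior {x | c0 ≤ w x}).Nonempty := by
    rw [nonempty_iff_ne_empty]
    intro he
    apply hpos
    have h1 := hcv.addHaar_frontier volume
    rw [frontier, he, sdiff_empty] at h1
    exact measure_mono_null subset_closure h1
  obtain ⟨p, hp'⟩ := hne
  obtain ⟨r, hr, hb⟩ := Metric.isOpen_iff.1 isOpen_interior p hp'
  exact ⟨c0, hc0, p, r, hr, hb.trans interior_subset⟩

theorem bdd (h0 : ∀ x, 0 ≤ w x) (hi : Integrable w) (hp : 0 < ∫ x, w x)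
    (hlc : ∀ x y, ∀ t : ℝ, 0 < t → t < 1 → w x ^ (1 - t) * w y ^ t ≤ w ((1 - t) • x + t • y)) :
    (∀ c : ℝ, 0 < c → Bornology.IsBounded {x | c ≤ w x}) ∧ ∃ B : ℝ, ∀ x, w x ≤ B := by
  obtain ⟨c0, hc0, p, r, hr, hb⟩ := exists_ball h0 hp hlc
  constructor
  · intro c hc
    have hm : 0 < min c c0 := lt_min hc hc0
    exact (bdd_of_vol (lev_convex h0 hlc hm) (hi.measure_ge_lt_top hm) hr
      (hb.trans fun x (hx : c0 ≤ w x) => (min_le_right _ _).trans hx)).subset
      fun x (hx : c ≤ w x) => (min_le_left _ _).trans hx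
  · set V : ℝ := volume.real (ball (0 : EuclideanSpace ℝ (Fin n)) (r / 2)) with hV
    have hV0 : 0 < V := by
      rw [hV, Measure.real, ENNReal.toReal_pos_iff]
      exact ⟨measure_ball_pos _ _ (by linarith), measure_ball_lt_top⟩
    refine ⟨(∫ x, w x) ^ 2 / (V ^ 2 * c0), fun x => ?_⟩
    have h1 : ∀ z ∈ ball ((1 / 2 : ℝ) • (x + p)) (r / 2), Real.sqrt (w x * c0) ≤ w z := by
      intro z hz
      have h2 : (2 : ℝ) • z - x ∈ ball p r := by
        rw [mem_ball, dist_eq_norm] at hz ⊢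
        have h3 : (2 : ℝ) • z - x - p = (2 : ℝ) • (z - (1 / 2 : ℝ) • (x + p)) := by module
        rw [h3, norm_smul, Real.norm_eq_abs, abs_of_pos (by norm_num : (0 : ℝ) < 2)]
        linarith
      have h4 : c0 ≤ w ((2 : ℝ) • z - x) := hb h2
      have h5 := hlc x ((2 : ℝ) • z - x) (1 / 2) (by norm_num) (by norm_num)
      have h6 : (1 - (1 / 2 : ℝ)) • x + (1 / 2 : ℝ) • ((2 : ℝ) • z - x) = z := by module
      rw [h6] at h5
      refine le_trans ?_ h5
      rw [Real.sqrt_mul (h0 x), Real.sqrt_eq_rpow, Real.sqrt_eq_rpow]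
      have h7 : (1 - 1 / 2 : ℝ) = 1 / 2 := by norm_num
      rw [h7]
      exact mul_le_mul_of_nonneg_left (Real.rpow_le_rpow hc0.le h4 (by norm_num))
        (Real.rpow_nonneg (h0 x) _)
    have h2 : V * Real.sqrt (w x * c0) ≤ ∫ x, w x := by
      calc V * Real.sqrt (w x * c0) =
          ∫ z in ball ((1 / 2 : ℝ) • (x + p)) (r / 2), Real.sqrt (w x * c0) := by
            rw [setIntegral_const, smul_eq_mul, hV, Measure.real, Measure.real,
              Measure.addHaar_ball_center volume ((1 / 2 : ℝ) • (x + p))]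
        _ ≤ ∫ z in ball ((1 / 2 : ℝ) • (x + p)) (r / 2), w z :=
            setIntegral_mono_on (integrableOn_const measure_ball_lt_top.ne) hi.integrableOn
              measurableSet_ball h1
        _ ≤ ∫ z, w z := setIntegral_le_integral hi (Filter.Eventually.of_forall h0)
    have h3 : V ^ 2 * (w x * c0) ≤ (∫ x, w x) ^ 2 := by
      calc V ^ 2 * (w x * c0) = (V * Real.sqrt (w x * c0)) ^ 2 := by
            rw [mul_pow, Real.sq_sqrt (mul_nonneg (h0 x) hc0.le)]
        _ ≤ _ := pow_le_pow_left₀ (by positivity) h2 2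
    rw [le_div_iff₀ (by positivity)]
    linarith

end

open Pool.Agent.J4H58.XC

theorem t_MOM : S_MOM := by
  intro n ρ hn hρ
  haveI : Nonempty (Fin n) := ⟨⟨0, hn⟩⟩
  have hp : 0 < ∫ x, ρ x := by rw [hρ.one]; norm_num
  obtain ⟨hb, B, hB⟩ := bdd hρ.nonneg hρ.int hp hρ.logc
  obtain ⟨A, b, hA, hb0, hdec⟩ := lwd hρ.nonneg hp hρ.logc hb hB
  have hint : Integrable (fun x : EuclideanSpace ℝ (Fin n) => ‖x‖ ^ 2 * ρ x) := by
    refine Integrable.mono' ((exp_int n (b := b / 2) (by positivity)).const_mul (A * (8 / b ^ 2)))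
      ((by fun_prop : Measurable fun x : EuclideanSpace ℝ (Fin n) => ‖x‖ ^ 2).mul
        hρ.meas).aestronglyMeasurable (Filter.Eventually.of_forall fun x => ?_)
    rw [Real.norm_of_nonneg (mul_nonneg (sq_nonneg _) (hρ.nonneg x))]
    have h1 := Real.pow_div_factorial_le_exp (b / 2 * ‖x‖) (by positivity) 2
    have h2 : ‖x‖ ^ 2 ≤ 8 / b ^ 2 * Real.exp (b / 2 * ‖x‖) := by
      rw [div_mul_eq_mul_div, le_div_iff₀ (by positivity)]
      norm_num [Nat.factorial] at h1
      nlinarith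
    have h3 : Real.exp (-(b * ‖x‖)) = Real.exp (-(b / 2 * ‖x‖)) * Real.exp (-(b / 2 * ‖x‖)) := by
      rw [← Real.exp_add]
      congr 1
      ring
    have h4 : Real.exp (b / 2 * ‖x‖) * Real.exp (-(b / 2 * ‖x‖)) = 1 := by
      rw [← Real.exp_add]
      simp
    calc ‖x‖ ^ 2 * ρ x ≤ (8 / b ^ 2 * Real.exp (b / 2 * ‖x‖)) * (A * Real.exp (-(b * ‖x‖))) :=
          mul_le_mul h2 (hdec x) (hρ.nonneg x) (by positivity)
      _ = A * (8 / b ^ 2) * Real.exp (-(b / 2 * ‖x‖)) *
          (Real.exp (b / 2 * ‖x‖) * Real.exp (-(b / 2 * ‖x‖))) := by rw [h3]; ring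
      _ = _ := by rw [h4, mul_one]
  refine ⟨A, b, hb0, fun x => ?_, hint, ?_⟩
  · have h1 := hdec x
    rwa [neg_mul]
  · have h1 : 0 ≤ ∫ x : EuclideanSpace ℝ (Fin n), ‖x‖ ^ 2 * ρ x :=
      integral_nonneg fun x => mul_nonneg (sq_nonneg _) (hρ.nonneg x)
    refine lt_of_le_of_ne h1 fun h2 => ?_
    have h3 := (integral_eq_zero_iff_of_nonneg
      (fun x => mul_nonneg (sq_nonneg ‖x‖) (hρ.nonneg x)) hint).1 h2.symm
    have h4 : ρ =ᵐ[volume] 0 := by
      have h5 : ∀ᵐ x : EuclideanSpace ℝ (Fin n), x ≠ 0 := by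
        rw [ae_iff]
        simp
      filter_upwards [h3, h5] with x hx hx0
      have h6 : ‖x‖ ^ 2 * ρ x = 0 := hx
      rcases mul_eq_zero.1 h6 with h7 | h7
      · exact absurd (norm_eq_zero.1 (pow_eq_zero_iff (two_ne_zero) |>.1 h7)) hx0
      · exact h7
    rw [integral_eq_zero_of_ae h4] at hp
    exact lt_irrefl _ hp

end Pool.Agent.J4H74.XC.Mom
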