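import Pool.Agent.J4H58.XC.Stm3

/-!
# XC, piece X9a: sums over the vertices of a cell
-/

set_option autoImplicit false

namespace Pool.Agent.J4H74.XC

open Finset Pool.Agent.J4H58.XC

variable {n : ℕ}

theorem vx_mem (x : Fin n → ℕ) {A : Finset (Fin n)} {j : Fin n} (h : j ∈ A) :
    vx x A j = x j + 1 := by
  simp [vx, h]

theorem vx_notMem (x : Fin n → ℕ) {A : Finset (Fin n)} {j : Fin n} (h : j ∉ A) :
    vx x A j = x j := by
  simp [vx, h]

theorem vx_inj (x : Fin n → ℕ) : Function.Injective (vx x) := by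
  intro A B h
  ext j
  have h1 := congrFun h j
  by_cases hA : j ∈ A <;> by_cases hB : j ∈ B
  · simp [hA, hB]
  · rw [vx_mem x hA, vx_notMem x hB] at h1
    omega
  · rw [vx_notMem x hA, vx_mem x hB] at h1
    omega
  · simp [hA, hB]

theorem vx_insert (x : Fin n → ℕ) (A : Finset (Fin n)) (i : Fin n) (hi : i ∉ A) :
    vx x (insert i A) = vx x A + Pi.single i 1 := by
  funext j
  rw [Pi.add_apply]
  by_cases hj : j = i
  · subst hj
    rw [Pi.single_eq_same, vx_notMem x hi, vx_mem x (mem_insert_self _ _)]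
  · rw [Pi.single_eq_of_ne hj, add_zero]
    by_cases hA : j ∈ A
    · rw [vx_mem x hA, vx_mem x (mem_insert_of_mem hA)]
    · rw [vx_notMem x hA, vx_notMem x]
      rw [mem_insert, not_or]
      exact ⟨hj, hA⟩

theorem sum_cell (N : ℕ) (x : Fin n → ℕ) (hx : ∀ i, x i < N) (f : (Fin n → ℕ) → ℝ)
    (w : Fin n → ℕ → ℝ) (hw : ∀ i m, m ≠ x i → m ≠ x i + 1 → w i m = 0) :
    ∑ y ∈ Fintype.piFinset (fun _ : Fin n => range (N + 1)), f y * ∏ i, w i (y i) =
      ∑ A : Finset (Fin n), f (vx x A) * ∏ i, w i (vx x A i) := by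
  classical
  rw [← sum_image (s := (univ : Finset (Finset (Fin n)))) (g := vx x)
    (f := fun y => f y * ∏ i, w i (y i)) (fun A _ B _ h => vx_inj x h)]
  symm
  apply sum_subset
  · intro y hy
    rw [mem_image] at hy
    obtain ⟨A, -, rfl⟩ := hy
    rw [Fintype.mem_piFinset]
    intro j
    rw [mem_range]
    have := hx j
    by_cases hA : j ∈ A
    · rw [vx_mem x hA]
      omega
    · rw [vx_notMem x hA]
      omega
  · intro y _ hy
    by_contra hne
    apply hy
    have h1 : ∀ i, y i = x i ∨ y i = x i + 1 := by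
      intro i
      by_contra hno
      rw [not_or] at hno
      apply hne
      rw [prod_eq_zero (mem_univ i) (hw i (y i) hno.1 hno.2), mul_zero]
    rw [mem_image]
    refine ⟨univ.filter fun i => y i = x i + 1, mem_univ _, ?_⟩
    funext j
    by_cases hj : y j = x j + 1
    · rw [vx_mem x (by simpa using hj), hj]
    · rw [vx_notMem x (by simpa using hj)]
      exact ((h1 j).resolve_right hj).symm

theorem filter_eq (i : Fin n) :
    (univ : Finset (Finset (Fin n))).filter (fun A => i ∉ A) = (univ.erase i).powerset := by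
  ext A
  rw [mem_filter, mem_powerset]
  constructor
  · intro h j hj
    rw [mem_erase]
    exact ⟨fun h1 => h.2 (h1 ▸ hj), mem_univ _⟩
  · intro h
    exact ⟨mem_univ _, fun h1 => (mem_erase.1 (h h1)).1 rfl⟩

theorem sum_split (i : Fin n) (F : Finset (Fin n) → ℝ) :
    ∑ A, F A = ∑ A ∈ (univ : Finset (Finset (Fin n))).filter (fun A => i ∉ A),
      (F A + F (insert i A)) := by
  rw [filter_eq, sum_add_distrib, ← sum_powerset_insert (notMem_erase i univ),
    insert_erase (mem_univ i), powerset_univ]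

theorem prod_ite_add (s : Finset (Fin n)) (a b : Fin n → ℝ) :
    ∑ A ∈ s.powerset, ∏ j ∈ s, (if j ∈ A then a j else b j) = ∏ j ∈ s, (a j + b j) := by
  rw [prod_add]
  apply sum_congr rfl
  intro A hA
  rw [mem_powerset] at hA
  rw [prod_ite, filter_mem_eq_inter, inter_eq_right.2 hA, filter_notMem_eq_sdiff]

/-- Jensen -/
theorem jensen {ι : Type} (s : Finset ι) (P d : ι → ℝ) (hP : ∀ i ∈ s, 0 ≤ P i)
    (h1 : ∑ i ∈ s, P i = 1) : (∑ i ∈ s, P i * d i) ^ 2 ≤ ∑ i ∈ s, P i * d i ^ 2 := by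
  have h2 : 0 ≤ ∑ i ∈ s, P i * (d i - ∑ j ∈ s, P j * d j) ^ 2 :=
    sum_nonneg fun i hi => mul_nonneg (hP i hi) (sq_nonneg _)
  set m := ∑ j ∈ s, P j * d j with hm
  have h3 : ∑ i ∈ s, P i * (d i - m) ^ 2 =
      ∑ i ∈ s, P i * d i ^ 2 - 2 * m * ∑ i ∈ s, P i * d i + m ^ 2 * ∑ i ∈ s, P i := by
    rw [mul_sum s _ (2 * m), mul_sum s _ (m ^ 2), ← sum_sub_distrib, ← sum_add_distrib]
    apply sum_congr rfl
    intro i _
    ring
  rw [h3, h1, ← hm] at h2
  nlinarith

theorem dE_nonneg (f : (Fin n → ℕ) → ℝ) (x : Fin n → ℕ) (i : Fin n) : 0 ≤ dE f x i :=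
  sum_nonneg fun _ _ => sq_nonneg _

theorem aux (p q m S D : ℝ) (hm : 0 ≤ m) (hS : 0 ≤ S) (ih : q ^ 2 ≤ m * S) (hp : p ^ 2 ≤ D) :
    (p + q) ^ 2 ≤ (m + 1) * (D + S) := by
  have h2 : |2 * p * q| ≤ m * p ^ 2 + S := by
    apply abs_le_of_sq_le_sq
    · have h3 : (2 * p * q) ^ 2 ≤ 4 * p ^ 2 * (m * S) := by
        have h4 : (2 * p * q) ^ 2 = 4 * p ^ 2 * q ^ 2 := by ring
        rw [h4]
        exact mul_le_mul_of_nonneg_left ih (by positivity)
      have h5 : (m * p ^ 2 + S) ^ 2 = 4 * p ^ 2 * (m * S) + (m * p ^ 2 - S) ^ 2 := by ring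
      rw [h5]
      linarith [sq_nonneg (m * p ^ 2 - S)]
    · positivity
  have h3 := (le_abs_self _).trans h2
  have h4 : (m + 1) * p ^ 2 ≤ (m + 1) * D :=
    mul_le_mul_of_nonneg_left hp (by linarith)
  nlinarith

theorem path (f : (Fin n → ℕ) → ℝ) (x : Fin n → ℕ) (A : Finset (Fin n)) :
    (f (vx x A) - f x) ^ 2 ≤ A.card * ∑ i ∈ A, dE f x i := by
  classical
  induction A using Finset.induction_on with
  | empty =>
    have h1 : vx x ∅ = x := by
      funext j
      simp [vx]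
    rw [h1]
    simp
  | insert a A ha ih =>
    rw [card_insert_of_notMem ha, sum_insert ha, vx_insert x A a ha]
    set S := ∑ i ∈ A, dE f x i with hS
    have hS0 : 0 ≤ S := sum_nonneg fun i _ => dE_nonneg f x i
    have hp : (f (vx x A + Pi.single a 1) - f (vx x A)) ^ 2 ≤ dE f x a := by
      unfold dE
      exact single_le_sum (f := fun A => (f (vx x A + Pi.single a 1) - f (vx x A)) ^ 2)
        (fun _ _ => sq_nonneg _) (show A ∈ (univ : Finset (Finset (Fin n))).filter
          (fun A => a ∉ A) from mem_filter.2 ⟨mem_univ A, ha⟩)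
    set p := f (vx x A + Pi.single a 1) - f (vx x A) with hpd
    set q := f (vx x A) - f x with hqd
    have e1 : f (vx x A + Pi.single a 1) - f x = p + q := by rw [hpd, hqd]; ring
    rw [e1]
    push_cast
    exact aux _ _ _ _ _ (Nat.cast_nonneg _) hS0 ih hp

theorem path' (f : (Fin n → ℕ) → ℝ) (x : Fin n → ℕ) (A : Finset (Fin n)) :
    (f (vx x A) - f x) ^ 2 ≤ n * ∑ i, dE f x i := by
  refine (path f x A).trans ?_
  apply mul_le_mul
  · have := card_le_univ A
    rw [Fintype.card_fin] at this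
    exact_mod_cast this
  · exact sum_le_sum_of_subset_of_nonneg (subset_univ _) fun i _ _ => dE_nonneg f x i
  · exact sum_nonneg fun i _ => dE_nonneg f x i
  · exact Nat.cast_nonneg _

end Pool.Agent.J4H74.XC
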