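import Pool.Agent.J4H74.XC.Th
import Pool.Agent.J4H74.XC.Cmb

/-!
# XC, piece X9a: the interpolation
-/

set_option autoImplicit false

namespace Pool.Agent.J4H74.XC

open MeasureTheory Set Filter Topology Pool.Agent.J4H58.XC

variable {n : ℕ} {h th : ℝ → ℝ} {η : ℝ}

/-- interpolation -/
noncomputable def gf (th : ℝ → ℝ) (N : ℕ) (f : (Fin n → ℕ) → ℝ) (u : Fin n → ℝ) : ℝ :=
  ∑ y ∈ Fintype.piFinset (fun _ : Fin n => Finset.range (N + 1)),
    f y * ∏ i, (th (1 + (N * u i - y i)) - th (N * u i - y i))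

theorem gf_smooth (T : Tr h th η) (N : ℕ) (f : (Fin n → ℕ) → ℝ) :
    ContDiff ℝ 1 (gf th N f) := by
  unfold gf
  apply ContDiff.sum
  intro y _
  apply contDiff_const.mul
  apply contDiff_prod
  intro i _
  have h1 := T.smooth
  have h2 : ContDiff ℝ 1 (fun u : Fin n → ℝ => u i) := contDiff_apply ℝ ℝ i
  exact (h1.comp (contDiff_const.add ((contDiff_const.mul h2).sub contDiff_const))).sub
    (h1.comp ((contDiff_const.mul h2).sub contDiff_const))

theorem mem_cell {N : ℕ} (hN : 0 < N) {x : Fin n → ℕ} {u : Fin n → ℝ} (hu : u ∈ cell N x)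
    (i : Fin n) : (x i : ℝ) ≤ N * u i ∧ N * u i ≤ x i + 1 := by
  have hN0 : (0 : ℝ) < N := by exact_mod_cast hN
  have h1 : (x i : ℝ) / N ≤ u i := hu.1 i
  have h2 : u i ≤ ((x i + 1 : ℕ) : ℝ) / N := hu.2 i
  rw [div_le_iff₀ hN0] at h1
  rw [le_div_iff₀ hN0] at h2
  push_cast at h2
  constructor <;> linarith

theorem w_zero (T : Tr h th η) {s : ℝ} {x m : ℕ} (h1 : (x : ℝ) ≤ s) (h2 : s ≤ x + 1)
    (hm : m ≠ x) (hm' : m ≠ x + 1) :
    th (1 + (s - m)) - th (s - m) = 0 ∧ h (1 + (s - m)) - h (s - m) = 0 := by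
  rcases lt_or_ge m x with h3 | h3
  · have h4 : (m : ℝ) + 1 ≤ x := by exact_mod_cast h3
    rw [T.tr _ (by linarith), T.tr _ (by linarith), T.hr _ (by linarith), T.hr _ (by linarith)]
    simp
  · have h4 : (x : ℝ) + 2 ≤ m := by
      have : x + 2 ≤ m := by omega
      exact_mod_cast this
    rw [T.tl _ (by linarith), T.tl _ (by linarith), T.hl _ (by linarith), T.hl _ (by linarith)]
    simp

theorem w_left (T : Tr h th η) {s : ℝ} {x : ℕ} (h1 : (x : ℝ) ≤ s) :
    th (1 + (s - x)) - th (s - x) = 1 - th (s - x) ∧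
      h (1 + (s - x)) - h (s - x) = - h (s - x) := by
  rw [T.tr (1 + (s - x)) (by linarith), T.hr (1 + (s - x)) (by linarith)]
  simp

theorem w_right (T : Tr h th η) {s : ℝ} {x : ℕ} (h2 : s ≤ x + 1) :
    th (1 + (s - (x + 1 : ℕ))) - th (s - (x + 1 : ℕ)) = th (s - x) ∧
      h (1 + (s - (x + 1 : ℕ))) - h (s - (x + 1 : ℕ)) = h (s - x) := by
  push_cast
  rw [T.tl (s - (x + 1)) (by linarith), T.hl (s - (x + 1)) (by linarith)]
  have e : 1 + (s - ((x : ℝ) + 1)) = s - x := by ring
  rw [e]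
  simp

theorem gf_cell (T : Tr h th η) {N : ℕ} (hN : 0 < N) (f : (Fin n → ℕ) → ℝ) {x : Fin n → ℕ}
    (hx : ∀ i, x i < N) {u : Fin n → ℝ} (hu : u ∈ cell N x) :
    gf th N f u = ∑ A : Finset (Fin n), (∏ j, (if j ∈ A then th (N * u j - x j) else
      1 - th (N * u j - x j))) * f (vx x A) := by
  unfold gf
  rw [sum_cell N x hx f (fun j m => th (1 + (N * u j - m)) - th (N * u j - m)) (by
    intro i m h1 h2
    exact (w_zero T (mem_cell hN hu i).1 (mem_cell hN hu i).2 h1 h2).1)]
  apply Finset.sum_congr rfl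
  intro A _
  rw [mul_comm]
  congr 1
  apply Finset.prod_congr rfl
  intro j _
  by_cases hj : j ∈ A
  · rw [if_pos hj, vx_mem x hj]
    exact (w_right T (mem_cell hN hu j).2).1
  · rw [if_neg hj, vx_notMem x hj]
    exact (w_left T (mem_cell hN hu j).1).1

theorem part_a (T : Tr h th η) {N : ℕ} (hN : 0 < N) (f : (Fin n → ℕ) → ℝ) {x : Fin n → ℕ}
    (hx : ∀ i, x i < N) {u : Fin n → ℝ} (hu : u ∈ cell N x) :
    (gf th N f u - f x) ^ 2 ≤ n * ∑ i, dE f x i := by
  rw [gf_cell T hN f hx hu]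
  set P : Finset (Fin n) → ℝ := fun A => ∏ j, (if j ∈ A then th (N * u j - x j) else
      1 - th (N * u j - x j)) with hP
  have hP0 : ∀ A, 0 ≤ P A := by
    intro A
    apply Finset.prod_nonneg
    intro j _
    split_ifs
    · exact T.t0 _
    · linarith [T.t1 (N * u j - x j)]
  have hP1 : ∑ A, P A = 1 := by
    have h1 := prod_ite_add (Finset.univ : Finset (Fin n)) (fun j => th (N * u j - x j))
      (fun j => 1 - th (N * u j - x j))
    rw [Finset.powerset_univ] at h1
    simp only [hP]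
    rw [h1]
    apply Finset.prod_eq_one
    intro j _
    ring
  have h1 : ∑ A, P A * f (vx x A) - f x = ∑ A, P A * (f (vx x A) - f x) := by
    simp_rw [mul_sub]
    rw [Finset.sum_sub_distrib, ← Finset.sum_mul, hP1, one_mul]
  rw [h1]
  refine (jensen Finset.univ P _ (fun A _ => hP0 A) hP1).trans ?_
  calc ∑ A, P A * (f (vx x A) - f x) ^ 2 ≤ ∑ A, P A * (n * ∑ i, dE f x i) :=
        Finset.sum_le_sum fun A _ => mul_le_mul_of_nonneg_left (path' f x A) (hP0 A)
    _ = n * ∑ i, dE f x i := by rw [← Finset.sum_mul, hP1, one_mul]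

theorem hasDeriv_line (T : Tr h th η) (N : ℕ) (f : (Fin n → ℕ) → ℝ) (u : Fin n → ℝ)
    (i : Fin n) :
    HasDerivAt (fun s : ℝ => gf th N f (u + s • Pi.single i 1))
      (∑ y ∈ Fintype.piFinset (fun _ : Fin n => Finset.range (N + 1)),
        f y * ∏ j, (if j = i then (N : ℝ) * (h (1 + (N * u j - y j)) - h (N * u j - y j)) else
          th (1 + (N * u j - y j)) - th (N * u j - y j))) 0 := by
  unfold gf
  apply HasDerivAt.fun_sum
  intro y _
  apply HasDerivAt.const_mul
  set W : ℝ := ∏ j ∈ Finset.univ.erase i, (th (1 + (N * u j - y j)) - th (N * u j - y j)) with hW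
  have e1 : (fun s : ℝ => ∏ j, (th (1 + (N * (u + s • (Pi.single i (1 : ℝ) : Fin n → ℝ)) j - y j)) -
      th (N * (u + s • (Pi.single i (1 : ℝ) : Fin n → ℝ)) j - y j))) =
      fun s : ℝ => (th (1 + (N * (u i + s) - y i)) - th (N * (u i + s) - y i)) * W := by
    funext s
    rw [← Finset.mul_prod_erase Finset.univ _ (Finset.mem_univ i), hW]
    congr 1
    · simp
    · apply Finset.prod_congr rfl
      intro j hj
      have hji : j ≠ i := (Finset.mem_erase.1 hj).1
      simp [hji]
  have e2 : ∏ j, (if j = i then (N : ℝ) * (h (1 + (N * u j - y j)) - h (N * u j - y j)) else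
          th (1 + (N * u j - y j)) - th (N * u j - y j)) =
      ((N : ℝ) * (h (1 + (N * u i - y i)) - h (N * u i - y i))) * W := by
    rw [← Finset.mul_prod_erase Finset.univ _ (Finset.mem_univ i), if_pos rfl, hW]
    congr 1
    apply Finset.prod_congr rfl
    intro j hj
    rw [if_neg (Finset.mem_erase.1 hj).1]
  rw [e1, e2]
  apply HasDerivAt.mul_const
  have h1 : HasDerivAt (fun s : ℝ => (N : ℝ) * (u i + s) - y i) N 0 := by
    have := (((hasDerivAt_id (0 : ℝ)).const_add (u i)).const_mul (N : ℝ)).sub_const (y i : ℝ)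
    simpa using this
  have h2 : HasDerivAt (fun s : ℝ => 1 + ((N : ℝ) * (u i + s) - y i)) N 0 := h1.const_add 1
  have h3 := (T.hd (N * (u i + 0) - y i)).comp (0 : ℝ) h1
  have h4 := (T.hd (1 + (N * (u i + 0) - y i))).comp (0 : ℝ) h2
  have h5 := h4.sub h3
  rw [add_zero] at h5
  have e3 : h (1 + (N * u i - y i)) * N - h (N * u i - y i) * N =
      (N : ℝ) * (h (1 + (N * u i - y i)) - h (N * u i - y i)) := by ring
  rw [e3] at h5
  exact h5

/-- the product over the other coordinates -/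
noncomputable def QQ (th : ℝ → ℝ) (N : ℕ) (x : Fin n → ℕ) (i : Fin n) (A : Finset (Fin n))
    (u : Fin n → ℝ) : ℝ :=
  ∏ j ∈ Finset.univ.erase i, (if j ∈ A then th (N * u j - x j) else 1 - th (N * u j - x j))

theorem pd_gf (T : Tr h th η) {N : ℕ} (hN : 0 < N) (f : (Fin n → ℕ) → ℝ) {x : Fin n → ℕ}
    (hx : ∀ i, x i < N) {u : Fin n → ℝ} (hu : u ∈ cell N x) (i : Fin n) :
    pd (gf th N f) i u = N * h (N * u i - x i) *
      ∑ A ∈ (Finset.univ : Finset (Finset (Fin n))).filter (fun A => i ∉ A),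
        QQ th N x i A u * (f (vx x A + Pi.single i 1) - f (vx x A)) := by
  have hdiff : DifferentiableAt ℝ (gf th N f) u :=
    (gf_smooth T N f).differentiable one_ne_zero u
  have h1 : pd (gf th N f) i u = ∑ y ∈ Fintype.piFinset (fun _ : Fin n => Finset.range (N + 1)),
        f y * ∏ j, (if j = i then (N : ℝ) * (h (1 + (N * u j - y j)) - h (N * u j - y j)) else
          th (1 + (N * u j - y j)) - th (N * u j - y j)) :=
    HasDerivAt.unique (hdiff.hasFDerivAt.hasLineDerivAt (Pi.single i 1)) (hasDeriv_line T N f u i)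
  rw [h1, sum_cell N x hx f (fun j m => if j = i then
      (N : ℝ) * (h (1 + (N * u j - m)) - h (N * u j - m)) else
          th (1 + (N * u j - m)) - th (N * u j - m)) (by
    intro j m h2 h3
    have h4 := w_zero T (mem_cell hN hu j).1 (mem_cell hN hu j).2 h2 h3
    split_ifs
    · rw [h4.2, mul_zero]
    · exact h4.1), sum_split i, Finset.mul_sum]
  apply Finset.sum_congr rfl
  intro A hA
  have hiA : i ∉ A := (Finset.mem_filter.1 hA).2
  have e1 : ∏ j, (if j = i then (N : ℝ) * (h (1 + (N * u j - (vx x A j : ℕ))) -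
      h (N * u j - (vx x A j : ℕ))) else
          th (1 + (N * u j - (vx x A j : ℕ))) - th (N * u j - (vx x A j : ℕ))) =
      -(N * h (N * u i - x i)) * QQ th N x i A u := by
    rw [← Finset.mul_prod_erase Finset.univ _ (Finset.mem_univ i), if_pos rfl, vx_notMem x hiA,
      (w_left T (mem_cell hN hu i).1).2, mul_neg]
    congr 1
    unfold QQ
    apply Finset.prod_congr rfl
    intro j hj
    rw [if_neg (Finset.mem_erase.1 hj).1]
    by_cases hjA : j ∈ A
    · rw [if_pos hjA, vx_mem x hjA]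
      exact (w_right T (mem_cell hN hu j).2).1
    · rw [if_neg hjA, vx_notMem x hjA]
      exact (w_left T (mem_cell hN hu j).1).1
  have e2 : ∏ j, (if j = i then (N : ℝ) * (h (1 + (N * u j - (vx x (insert i A) j : ℕ))) -
      h (N * u j - (vx x (insert i A) j : ℕ))) else
          th (1 + (N * u j - (vx x (insert i A) j : ℕ))) -
            th (N * u j - (vx x (insert i A) j : ℕ))) =
      (N * h (N * u i - x i)) * QQ th N x i A u := by
    rw [← Finset.mul_prod_erase Finset.univ _ (Finset.mem_univ i), if_pos rfl,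
      vx_mem x (Finset.mem_insert_self i A),
      (w_right T (mem_cell hN hu i).2).2]
    congr 1
    unfold QQ
    apply Finset.prod_congr rfl
    intro j hj
    have hji := (Finset.mem_erase.1 hj).1
    rw [if_neg hji]
    by_cases hjA : j ∈ A
    · rw [if_pos hjA, vx_mem x (Finset.mem_insert_of_mem hjA)]
      exact (w_right T (mem_cell hN hu j).2).1
    · have hjA' : j ∉ insert i A := by
        rw [Finset.mem_insert, not_or]
        exact ⟨hji, hjA⟩
      rw [if_neg hjA, vx_notMem x hjA']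
      exact (w_left T (mem_cell hN hu j).1).1
  rw [e1, e2, vx_insert x A i hiA]
  ring

theorem int_prod (T : Tr h th η) {N : ℕ} (hN : 0 < N) (x : Fin n → ℕ) (i : Fin n)
    (A : Finset (Fin n)) :
    ∫ u in cell N x, ∏ j, (if j = i then h (N * u j - x j) ^ 2 else
      if j ∈ A then th (N * u j - x j) else 1 - th (N * u j - x j)) ≤
      (1 + η) ^ 2 / ((N : ℝ) ^ n * 2 ^ (n - 1)) := by
  have hN0 : (0 : ℝ) < N := by exact_mod_cast hN
  have h1 : cell N x = Set.pi univ fun j => Icc ((x j : ℝ) / N) (((x j + 1 : ℕ) : ℝ) / N) :=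
    (Set.pi_univ_Icc _ _).symm
  rw [h1, volume_pi, Measure.restrict_pi_pi]
  rw [integral_fintype_prod_eq_prod (fun (j : Fin n) (s : ℝ) => if j = i then
    h (N * s - x j) ^ 2 else if j ∈ A then th (N * s - x j) else 1 - th (N * s - x j))]
  rw [← Finset.mul_prod_erase Finset.univ _ (Finset.mem_univ i)]
  simp only [if_true]
  rw [int_cell (fun t => h t ^ 2) N hN (x i)]
  have h2 : ∏ j ∈ Finset.univ.erase i, (∫ s in Icc ((x j : ℝ) / N) (((x j + 1 : ℕ) : ℝ) / N),
      (if j = i then h (N * s - x j) ^ 2 else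
        if j ∈ A then th (N * s - x j) else 1 - th (N * s - x j))) =
      ((N : ℝ)⁻¹ * (1 / 2)) ^ (n - 1) := by
    have h3 : ∀ j ∈ (Finset.univ : Finset (Fin n)).erase i,
        (∫ s in Icc ((x j : ℝ) / N) (((x j + 1 : ℕ) : ℝ) / N),
      (if j = i then h (N * s - x j) ^ 2 else
        if j ∈ A then th (N * s - x j) else 1 - th (N * s - x j))) = (N : ℝ)⁻¹ * (1 / 2) := by
      intro j hj
      have hji := (Finset.mem_erase.1 hj).1
      simp only [if_neg hji]
      by_cases hjA : j ∈ A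
      · simp only [if_pos hjA]
        rw [int_cell th N hN (x j), T.half]
      · simp only [if_neg hjA]
        rw [int_cell (fun t => 1 - th t) N hN (x j), T.half']
    rw [Finset.prod_congr rfl h3, Finset.prod_const, Finset.card_erase_of_mem (Finset.mem_univ i),
      Finset.card_univ, Fintype.card_fin]
  rw [h2]
  have h4 : (N : ℝ) ^ n = N * N ^ (n - 1) := by
    rw [← pow_succ']
    congr 1
    have := i.pos
    omega
  rw [h4]
  have h5 : (1 + η) ^ 2 / ((N : ℝ) * N ^ (n - 1) * 2 ^ (n - 1)) =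
      ((N : ℝ)⁻¹ * (1 + η) ^ 2) * ((N : ℝ)⁻¹ * (1 / 2)) ^ (n - 1) := by
    rw [mul_pow, div_pow, one_pow, inv_pow]
    field_simp
  rw [h5]
  apply mul_le_mul_of_nonneg_right _ (by positivity)
  exact mul_le_mul_of_nonneg_left T.sq (by positivity)

theorem part_b (T : Tr h th η) {N : ℕ} (hN : 0 < N) (f : (Fin n → ℕ) → ℝ) {x : Fin n → ℕ}
    (hx : ∀ i, x i < N) (i : Fin n) :
    ∫ u in cell N x, pd (gf th N f) i u ^ 2 ≤
      (1 + η) ^ 2 * (N : ℝ) ^ 2 / ((N : ℝ) ^ n * 2 ^ (n - 1)) * dE f x i := by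
  set F : Finset (Finset (Fin n)) :=
    (Finset.univ : Finset (Finset (Fin n))).filter (fun A => i ∉ A) with hF
  set d : Finset (Fin n) → ℝ := fun A => f (vx x A + Pi.single i 1) - f (vx x A) with hd
  set R : Finset (Fin n) → (Fin n → ℝ) → ℝ := fun A u => ∏ j, (if j = i then
    h (N * u j - x j) ^ 2 else if j ∈ A then th (N * u j - x j) else 1 - th (N * u j - x j))
    with hR
  have hRQ : ∀ A u, R A u = h (N * u i - x i) ^ 2 * QQ th N x i A u := by
    intro A u
    simp only [hR]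
    rw [← Finset.mul_prod_erase Finset.univ _ (Finset.mem_univ i), if_pos rfl]
    congr 1
    unfold QQ
    apply Finset.prod_congr rfl
    intro j hj
    rw [if_neg (Finset.mem_erase.1 hj).1]
  have hRc : ∀ A, Continuous (R A) := by
    intro A
    simp only [hR]
    apply continuous_finsetProd
    intro j _
    have h1 : Continuous fun u : Fin n → ℝ => (N : ℝ) * u j - x j := by fun_prop
    split_ifs
    · exact (T.hc.comp h1).pow 2
    · exact T.cont.comp h1
    · exact continuous_const.sub (T.cont.comp h1)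
  have hQ0 : ∀ A u, 0 ≤ QQ th N x i A u := by
    intro A u
    apply Finset.prod_nonneg
    intro j _
    split_ifs
    · exact T.t0 _
    · linarith [T.t1 (N * u j - x j)]
  have hQ1 : ∀ u, ∑ A ∈ F, QQ th N x i A u = 1 := by
    intro u
    have h1 := prod_ite_add ((Finset.univ : Finset (Fin n)).erase i) (fun j => th (N * u j - x j))
      (fun j => 1 - th (N * u j - x j))
    rw [hF, filter_eq]
    unfold QQ
    rw [h1]
    apply Finset.prod_eq_one
    intro j _
    ring
  have hpt : ∀ u ∈ cell N x, pd (gf th N f) i u ^ 2 ≤ ∑ A ∈ F, (N : ℝ) ^ 2 * d A ^ 2 * R A u := by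
    intro u hu
    rw [pd_gf T hN f hx hu i, mul_pow, mul_pow]
    calc (N : ℝ) ^ 2 * h (N * u i - x i) ^ 2 * (∑ A ∈ F, QQ th N x i A u * d A) ^ 2
        ≤ (N : ℝ) ^ 2 * h (N * u i - x i) ^ 2 * ∑ A ∈ F, QQ th N x i A u * d A ^ 2 :=
          mul_le_mul_of_nonneg_left (jensen F _ d (fun A _ => hQ0 A u) (hQ1 u)) (by positivity)
      _ = ∑ A ∈ F, (N : ℝ) ^ 2 * d A ^ 2 * R A u := by
          rw [Finset.mul_sum]
          apply Finset.sum_congr rfl
          intro A _
          rw [hRQ]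
          ring
  have hint : ∀ A, IntegrableOn (fun u => (N : ℝ) ^ 2 * d A ^ 2 * R A u) (cell N x) := by
    intro A
    apply ContinuousOn.integrableOn_compact isCompact_Icc
    exact (continuous_const.mul (hRc A)).continuousOn
  have h1 : ∫ u in cell N x, pd (gf th N f) i u ^ 2 ≤
      ∫ u in cell N x, ∑ A ∈ F, (N : ℝ) ^ 2 * d A ^ 2 * R A u := by
    apply integral_mono_of_nonneg
    · exact Filter.Eventually.of_forall fun u => sq_nonneg _
    · exact integrable_finsetSum _ fun A _ => hint A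
    · exact ae_restrict_of_forall_mem measurableSet_Icc hpt
  refine h1.trans ?_
  rw [integral_finsetSum _ fun A _ => hint A]
  have hdE : dE f x i = ∑ A ∈ F, d A ^ 2 := rfl
  rw [hdE, Finset.mul_sum]
  apply Finset.sum_le_sum
  intro A _
  rw [integral_const_mul]
  have h2 := int_prod T hN x i A
  calc (N : ℝ) ^ 2 * d A ^ 2 * ∫ u in cell N x, R A u
      ≤ (N : ℝ) ^ 2 * d A ^ 2 * ((1 + η) ^ 2 / ((N : ℝ) ^ n * 2 ^ (n - 1))) :=
        mul_le_mul_of_nonneg_left h2 (by positivity)
    _ = _ := by ring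

theorem t_X9a : S_X9a := by
  intro n N η f hN hη
  obtain ⟨h, th, T⟩ := exists_tr η hη
  refine ⟨gf th N f, gf_smooth T N f, fun x hx => ⟨fun u hu => part_a T hN f hx hu, fun i => ?_⟩⟩
  exact part_b T hN f hx i

end Pool.Agent.J4H74.XC
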