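import Pool.Agent.J4H58.XC.Stm5

/-!
# XC, piece A1: folding a measure into a cube
-/

set_option autoImplicit false

namespace Pool.Agent.J4H74.XC.A1

open MeasureTheory Set Filter Topology ProbabilityTheory
open scoped ENNReal InnerProductSpace
open Pool.Agent.J4H58.XC
open Pool.Agent.J4H58.OC (PI)

/-- smooth approximation of the triangle wave -/
noncomputable def ph (L η t : ℝ) : ℝ :=
  2 * L / Real.pi * Real.arcsin ((1 - η) * Real.sin (Real.pi * t / (2 * L)))

theorem ph_zero (L t : ℝ) : ph L 0 t = tw L t := by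
  unfold ph tw
  rw [sub_zero, one_mul]

theorem abs_lt_one {η : ℝ} (h0 : 0 < η) (h1 : η < 1) (θ : ℝ) :
    |(1 - η) * Real.sin θ| < 1 := by
  rw [abs_mul, abs_of_pos (by linarith : 0 < 1 - η)]
  have h2 := Real.abs_sin_le_one θ
  nlinarith [abs_nonneg (Real.sin θ)]

theorem ph_smooth (L : ℝ) {η : ℝ} (h0 : 0 < η) (h1 : η < 1) : ContDiff ℝ 1 (ph L η) := by
  rw [contDiff_iff_contDiffAt]
  intro t
  unfold ph
  apply contDiffAt_const.mul
  have h2 := abs_lt.1 (abs_lt_one h0 h1 (Real.pi * t / (2 * L)))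
  refine ContDiffAt.comp (g := Real.arcsin)
    (f := fun t : ℝ => (1 - η) * Real.sin (Real.pi * t / (2 * L))) t
    (Real.contDiffAt_arcsin h2.1.ne' h2.2.ne) ?_
  exact contDiffAt_const.mul (Real.contDiff_sin.contDiffAt.comp t
    ((contDiffAt_const.mul contDiffAt_id).div_const _))

theorem ph_deriv {L : ℝ} (hL : 0 < L) {η : ℝ} (h0 : 0 < η) (h1 : η < 1) (t : ℝ) :
    deriv (ph L η) t ^ 2 ≤ 1 := by
  set θ : ℝ := Real.pi * t / (2 * L) with hθ
  set s : ℝ := (1 - η) * Real.sin θ with hs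
  have h2 := abs_lt.1 (abs_lt_one h0 h1 θ)
  rw [← hs] at h2
  have hd1 : HasDerivAt (fun t : ℝ => Real.pi * t / (2 * L)) (Real.pi / (2 * L)) t := by
    have := ((hasDerivAt_id t).const_mul Real.pi).div_const (2 * L)
    simpa using this
  have hd2 := (hd1.sin.const_mul (1 - η))
  have hd3 := (Real.hasDerivAt_arcsin h2.1.ne' h2.2.ne).comp t hd2
  have hd4 := hd3.const_mul (2 * L / Real.pi)
  have hd5 : HasDerivAt (ph L η) (2 * L / Real.pi * (1 / √(1 - s ^ 2) *
      ((1 - η) * (Real.cos θ * (Real.pi / (2 * L)))))) t := hd4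
  rw [hd5.deriv]
  have hpi := Real.pi_pos
  have h3 : 2 * L / Real.pi * (1 / √(1 - s ^ 2) *
      ((1 - η) * (Real.cos θ * (Real.pi / (2 * L))))) = (1 - η) * Real.cos θ / √(1 - s ^ 2) := by
    field_simp
  have h4 : 0 < 1 - s ^ 2 := by
    have : s ^ 2 < 1 := by
      rw [sq_lt_one_iff_abs_lt_one]
      exact abs_lt.2 h2
    linarith
  rw [h3, div_pow, Real.sq_sqrt h4.le, div_le_one h4, hs, mul_pow, mul_pow]
  have h5 := Real.sin_sq_add_cos_sq θ
  have h6 : (1 - η) ^ 2 ≤ 1 := by nlinarith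
  nlinarith

theorem ph_mem {L : ℝ} (hL : 0 < L) (η t : ℝ) : -L ≤ ph L η t ∧ ph L η t ≤ L := by
  have hpi := Real.pi_pos
  have h1 := Real.arcsin_mem_Icc ((1 - η) * Real.sin (Real.pi * t / (2 * L)))
  unfold ph
  have h2 : 0 ≤ 2 * L / Real.pi := by positivity
  constructor
  · have h3 := mul_le_mul_of_nonneg_left h1.1 h2
    have h4 : 2 * L / Real.pi * -(Real.pi / 2) = -L := by field_simp
    linarith
  · have h3 := mul_le_mul_of_nonneg_left h1.2 h2
    have h4 : 2 * L / Real.pi * (Real.pi / 2) = L := by field_simp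
    linarith

theorem ph_cont1 (L η : ℝ) : Continuous (ph L η) := by
  unfold ph
  exact continuous_const.mul (Real.continuous_arcsin.comp (by fun_prop))

theorem ph_cont2 (L t : ℝ) : Continuous fun η : ℝ => ph L η t := by
  unfold ph
  exact continuous_const.mul (Real.continuous_arcsin.comp (by fun_prop))

/-- square of the norm of a functional -/
theorem norm_sq_clm {n : ℕ} (l : EuclideanSpace ℝ (Fin n) →L[ℝ] ℝ) :
    ‖l‖ ^ 2 = ∑ i, l (EuclideanSpace.single i 1) ^ 2 := by
  set v := (InnerProductSpace.toDual ℝ (EuclideanSpace ℝ (Fin n))).symm l with hv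
  have h1 : ‖l‖ = ‖v‖ := by rw [hv, LinearIsometryEquiv.norm_map]
  rw [h1, EuclideanSpace.norm_sq_eq]
  apply Finset.sum_congr rfl
  intro i _
  have h2 : l (EuclideanSpace.single i 1) = v i := by
    rw [← InnerProductSpace.toDual_symm_apply (𝕜 := ℝ) (x := EuclideanSpace.single i 1) (y := l),
      ← hv]
    simp [EuclideanSpace.inner_single_right]
  rw [h2, Real.norm_eq_abs, sq_abs]

variable {n : ℕ}

/-- the map -/
noncomputable def Ph (L η : ℝ) (x : EuclideanSpace ℝ (Fin n)) : Fin n → ℝ := fun i => ph L η (x i)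

theorem Ph_smooth (L : ℝ) {η : ℝ} (h0 : 0 < η) (h1 : η < 1) :
    ContDiff ℝ 1 (Ph (n := n) L η) := by
  rw [contDiff_pi]
  intro i
  have h2 : ContDiff ℝ 1 (fun x : EuclideanSpace ℝ (Fin n) => x i) :=
    (EuclideanSpace.proj (𝕜 := ℝ) i).contDiff
  exact (ph_smooth L h0 h1).comp h2

theorem grad_le {L : ℝ} (hL : 0 < L) {η : ℝ} (h0 : 0 < η) (h1 : η < 1) {f : (Fin n → ℝ) → ℝ}
    (hf : ContDiff ℝ 1 f) (x : EuclideanSpace ℝ (Fin n)) :
    ‖fderiv ℝ (fun x => f (Ph L η x)) x‖ ^ 2 ≤ gr f (Ph L η x) := by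
  rw [norm_sq_clm]
  unfold gr
  apply Finset.sum_le_sum
  intro i _
  have hfd : HasFDerivAt f (fderiv ℝ f (Ph L η x)) (Ph L η x) :=
    (hf.differentiable one_ne_zero _).hasFDerivAt
  have hg : DifferentiableAt ℝ (fun x => f (Ph (n := n) L η x)) x :=
    (hf.comp (Ph_smooth L h0 h1)).differentiable one_ne_zero x
  have h2 : HasDerivAt (fun s : ℝ => Ph L η (x + s • EuclideanSpace.single i (1 : ℝ)))
      (Pi.single i (deriv (ph L η) (x i))) 0 := by
    rw [hasDerivAt_pi]
    intro j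
    by_cases hj : j = i
    · subst hj
      rw [Pi.single_eq_same]
      have h3 : HasDerivAt (fun s : ℝ => x j + s) 1 0 := by
        simpa using (hasDerivAt_id (0 : ℝ)).const_add (x j)
      have h4 : HasDerivAt (ph L η) (deriv (ph L η) (x j)) (x j + 0) := by
        rw [add_zero]
        exact ((ph_smooth L h0 h1).differentiable one_ne_zero _).hasDerivAt
      have h5 := h4.comp (0 : ℝ) h3
      rw [mul_one] at h5
      refine h5.congr_of_eventuallyEq (Filter.Eventually.of_forall fun s => ?_)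
      simp [Ph]
    · rw [Pi.single_eq_of_ne hj]
      refine (hasDerivAt_const (0 : ℝ) (ph L η (x j))).congr_of_eventuallyEq
        (Filter.Eventually.of_forall fun s => ?_)
      simp [Ph, hj]
  have h3 : HasDerivAt (fun s : ℝ => f (Ph L η (x + s • EuclideanSpace.single i (1 : ℝ))))
      (fderiv ℝ f (Ph L η x) (Pi.single i (deriv (ph L η) (x i)))) 0 := by
    have h4 : HasFDerivAt f (fderiv ℝ f (Ph L η x))
        (Ph L η (x + (0 : ℝ) • EuclideanSpace.single i (1 : ℝ))) := by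
      rw [zero_smul, add_zero]
      exact hfd
    exact h4.comp_hasDerivAt (0 : ℝ) h2
  have h4 := HasDerivAt.unique (hg.hasFDerivAt.hasLineDerivAt (EuclideanSpace.single i 1)) h3
  rw [h4]
  have h5 : (Pi.single i (deriv (ph L η) (x i)) : Fin n → ℝ) =
      deriv (ph L η) (x i) • Pi.single i (1 : ℝ) := by
    rw [← Pi.single_smul, smul_eq_mul, mul_one]
  rw [h5, map_smul, smul_eq_mul, mul_pow]
  unfold pd
  exact mul_le_of_le_one_left (sq_nonneg _) (ph_deriv hL h0 h1 (x i))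

theorem gr_cont {f : (Fin n → ℝ) → ℝ} (hf : ContDiff ℝ 1 f) : Continuous (gr f) := by
  unfold gr pd
  have h1 : Continuous (fderiv ℝ f) := hf.continuous_fderiv one_ne_zero
  exact continuous_finsetSum _ fun i _ => (h1.clm_apply continuous_const).pow 2

theorem gr_nonneg (f : (Fin n → ℝ) → ℝ) (y : Fin n → ℝ) : 0 ≤ gr f y :=
  Finset.sum_nonneg fun _ _ => sq_nonneg _

theorem bdd {L : ℝ} (hL : 0 < L) {F : (Fin n → ℝ) → ℝ} (hF : Continuous F) :
    ∃ M : ℝ, ∀ (η : ℝ) (x : EuclideanSpace ℝ (Fin n)), ‖F (Ph L η x)‖ ≤ M := by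
  obtain ⟨M, hM⟩ := (isCompact_Icc (a := fun _ : Fin n => -L) (b := fun _ : Fin n => L)).exists_bound_of_continuousOn
    hF.continuousOn
  exact ⟨M, fun η x => hM _ ⟨fun i => (ph_mem hL η (x i)).1, fun i => (ph_mem hL η (x i)).2⟩⟩

theorem Ph_cont (L η : ℝ) : Continuous (Ph (n := n) L η) := by
  apply continuous_pi
  intro i
  have h1 : Continuous fun x : EuclideanSpace ℝ (Fin n) => x i := by fun_prop
  exact (ph_cont1 L η).comp h1

theorem integ {μ : Measure (EuclideanSpace ℝ (Fin n))} [IsProbabilityMeasure μ] {L : ℝ}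
    (hL : 0 < L) (η : ℝ) {F : (Fin n → ℝ) → ℝ} (hF : Continuous F) :
    Integrable (fun x => F (Ph L η x)) μ := by
  obtain ⟨M, hM⟩ := bdd (n := n) hL hF
  exact (integrable_const M).mono' (hF.comp (Ph_cont L η)).aestronglyMeasurable
    (Filter.Eventually.of_forall fun x => hM η x)

theorem step {μ : Measure (EuclideanSpace ℝ (Fin n))} [IsProbabilityMeasure μ] {K L : ℝ}
    (hK : 0 < K) (hL : 0 < L) (hPI : PI μ K) {f : (Fin n → ℝ) → ℝ} (hf : ContDiff ℝ 1 f)
    {η : ℝ} (h0 : 0 < η) (h1 : η < 1) :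
    (∫ x, f (Ph L η x) ^ 2 ∂μ) - (∫ x, f (Ph L η x) ∂μ) ^ 2 ≤ K * ∫ x, gr f (Ph L η x) ∂μ := by
  have h2 := hPI (fun x => f (Ph L η x)) (hf.comp (Ph_smooth L h0 h1))
  have hc : Continuous fun x : EuclideanSpace ℝ (Fin n) => f (Ph L η x) :=
    hf.continuous.comp (Ph_cont L η)
  have hm : MemLp (fun x : EuclideanSpace ℝ (Fin n) => f (Ph L η x)) 2 μ := by
    obtain ⟨M, hM⟩ := bdd (n := n) hL hf.continuous
    exact MemLp.of_bound hc.aestronglyMeasurable M (Filter.Eventually.of_forall fun x => hM η x)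
  rw [← hm.ofReal_variance_eq] at h2
  have h3 : ∫⁻ x, ENNReal.ofReal (‖fderiv ℝ (fun x => f (Ph L η x)) x‖ ^ 2) ∂μ ≤
      ENNReal.ofReal (∫ x, gr f (Ph L η x) ∂μ) := by
    rw [ofReal_integral_eq_lintegral_ofReal (integ hL η (gr_cont hf))
      (Filter.Eventually.of_forall fun x => gr_nonneg f _)]
    exact lintegral_mono fun x => ENNReal.ofReal_le_ofReal (grad_le hL h0 h1 hf x)
  have h4 := h2.trans (mul_le_mul_right h3 _)
  rw [← ENNReal.ofReal_mul hK.le, ENNReal.ofReal_le_ofReal_iff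
    (mul_nonneg hK.le (integral_nonneg fun x => gr_nonneg f _)), variance_eq_sub hm] at h4
  exact h4

theorem lim {μ : Measure (EuclideanSpace ℝ (Fin n))} [IsProbabilityMeasure μ] {L : ℝ}
    (hL : 0 < L) {F : (Fin n → ℝ) → ℝ} (hF : Continuous F) :
    Tendsto (fun k : ℕ => ∫ x, F (Ph L (1 / ((k : ℝ) + 2)) x) ∂μ) atTop
      (𝓝 (∫ x, F (fun i => tw L (x i)) ∂μ)) := by
  obtain ⟨M, hM⟩ := bdd (n := n) hL hF
  apply tendsto_integral_of_dominated_convergence (fun _ => M)
  · intro k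
    exact (hF.comp (Ph_cont L _)).aestronglyMeasurable
  · exact integrable_const M
  · intro k
    exact Filter.Eventually.of_forall fun x => hM _ x
  · refine Filter.Eventually.of_forall fun x => ?_
    have h1 : Tendsto (fun k : ℕ => 1 / ((k : ℝ) + 2)) atTop (𝓝 0) := by
      have h2 : Tendsto (fun k : ℕ => (k : ℝ) + 2) atTop atTop :=
        tendsto_atTop_add_const_right _ _ tendsto_natCast_atTop_atTop
      simp_rw [one_div]
      exact tendsto_inv_atTop_zero.comp h2
    have h3 : Tendsto (fun k : ℕ => Ph L (1 / ((k : ℝ) + 2)) x) atTop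
        (𝓝 (fun i => tw L (x i))) := by
      rw [tendsto_pi_nhds]
      intro i
      have h5 := ((ph_cont2 L (x i)).tendsto 0).comp h1
      rw [ph_zero] at h5
      exact h5
    exact (hF.tendsto _).comp h3

theorem t_A1 : S_A1 := by
  intro n μ hμ K L hK hL hPI f hf
  haveI := hμ
  have h1 := lim (μ := μ) hL (F := fun y => f y ^ 2) (hf.continuous.pow 2)
  have h2 := lim (μ := μ) hL hf.continuous
  have h3 := lim (μ := μ) hL (gr_cont hf)
  refine le_of_tendsto_of_tendsto' (h1.sub (h2.pow 2)) (h3.const_mul K) fun k => ?_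
  have hk : (0 : ℝ) < (k : ℝ) + 2 := by positivity
  exact step hK hL hPI hf (by positivity) (by
    rw [div_lt_one hk]
    have : (0 : ℝ) ≤ k := Nat.cast_nonneg k
    linarith)

end Pool.Agent.J4H74.XC.A1
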