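import Pool.Agent.J4H58.XC.Stm5

/-!
# XC, piece A2: the density of the folded measure
-/

set_option autoImplicit false

namespace Pool.Agent.J4H74.XC.A2

open MeasureTheory Set Filter Topology
open Pool.Agent.J4H58.XC

/-- sign -/
noncomputable def sg (m : ℤ) : ℝ := if Even m then 1 else -1

theorem sg_cases (m : ℤ) : sg m = 1 ∨ sg m = -1 := by
  unfold sg
  split_ifs <;> simp

theorem abs_sg (m : ℤ) : |sg m| = 1 := by
  rcases sg_cases m with h | h <;> rw [h] <;> norm_num

theorem sg_mul (m : ℤ) : sg m * sg m = 1 := by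
  rcases sg_cases m with h | h <;> rw [h] <;> norm_num

theorem sin_fold (m : ℤ) (θ : ℝ) : Real.sin (sg m * θ + m * Real.pi) = Real.sin θ := by
  unfold sg
  split_ifs with h
  · obtain ⟨j, rfl⟩ := h
    have e : (1 : ℝ) * θ + ((j + j : ℤ) : ℝ) * Real.pi = θ + j * (2 * Real.pi) := by
      push_cast
      ring
    rw [e, Real.sin_add_int_mul_two_pi]
  · rw [Int.not_even_iff_odd] at h
    obtain ⟨j, rfl⟩ := h
    have e : (-1 : ℝ) * θ + ((2 * j + 1 : ℤ) : ℝ) * Real.pi = (Real.pi - θ) + j * (2 * Real.pi) := by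
      push_cast
      ring
    rw [e, Real.sin_add_int_mul_two_pi, Real.sin_pi_sub]

theorem tw_fold {L : ℝ} (hL : 0 < L) (m : ℤ) {x : ℝ} (hx : -L ≤ x ∧ x ≤ L) :
    tw L (2 * L * m + sg m * x) = x := by
  have hpi := Real.pi_pos
  unfold tw
  have e1 : Real.pi * (2 * L * m + sg m * x) / (2 * L) =
      sg m * (Real.pi * x / (2 * L)) + m * Real.pi := by
    field_simp
    ring
  rw [e1, sin_fold, Real.arcsin_sin]
  · field_simp
  · rw [le_div_iff₀ (by positivity)]
    nlinarith [hx.1]
  · rw [div_le_iff₀ (by positivity)]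
    nlinarith [hx.2]

variable {n : ℕ}

/-- the affine maps -/
noncomputable def TT (L : ℝ) (m : Fin n → ℤ) (x : Fin n → ℝ) : Fin n → ℝ :=
  fun i => 2 * L * m i + sg (m i) * x i

theorem TT_cont (L : ℝ) (m : Fin n → ℤ) : Continuous (TT L m) := by
  unfold TT
  fun_prop

theorem TT_inj (L : ℝ) (m : Fin n → ℤ) : Function.Injective (TT L m) := by
  intro x y h
  funext i
  have h1 := congrFun h i
  unfold TT at h1
  have h2 : sg (m i) * x i = sg (m i) * y i := by linarith
  have h3 : sg (m i) * (sg (m i) * x i) = sg (m i) * (sg (m i) * y i) := by rw [h2]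
  rw [← mul_assoc, ← mul_assoc, sg_mul, one_mul, one_mul] at h3
  exact h3

theorem TT_pres (L : ℝ) (m : Fin n → ℤ) : MeasurePreserving (TT L m) volume volume := by
  rw [volume_pi]
  refine measurePreserving_pi (fun _ => volume) (fun _ => volume)
    (f := fun i (t : ℝ) => 2 * L * m i + sg (m i) * t) ?_
  intro i
  rcases sg_cases (m i) with h | h
  · simp only [h, one_mul]
    exact measurePreserving_add_left volume (2 * L * (m i : ℝ))
  · simp only [h, neg_mul, one_mul, ← sub_eq_add_neg]
    exact Measure.measurePreserving_sub_left volume (2 * L * (m i : ℝ))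

theorem TT_zero (L : ℝ) (x : Fin n → ℝ) : TT L 0 x = x := by
  funext i
  simp [TT, sg]

theorem TT_pre {L : ℝ} (m : Fin n → ℤ) :
    TT L m ⁻¹' (Icc (fun i => 2 * L * m i - L) (fun i => 2 * L * m i + L)) = cu n L := by
  ext x
  simp only [mem_preimage, cu, mem_Icc, Pi.le_def]
  constructor
  · rintro ⟨h1, h2⟩
    constructor
    · intro i
      have a := h1 i
      have b := h2 i
      unfold TT at a b
      rcases sg_cases (m i) with h | h <;> rw [h] at a b <;> linarith
    · intro i
      have a := h1 i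
      have b := h2 i
      unfold TT at a b
      rcases sg_cases (m i) with h | h <;> rw [h] at a b <;> linarith
  · rintro ⟨h1, h2⟩
    constructor
    · intro i
      have a := h1 i
      have b := h2 i
      unfold TT
      rcases sg_cases (m i) with h | h <;> rw [h] <;> linarith
    · intro i
      have a := h1 i
      have b := h2 i
      unfold TT
      rcases sg_cases (m i) with h | h <;> rw [h] <;> linarith

theorem tw_TT {L : ℝ} (hL : 0 < L) (m : Fin n → ℤ) {x : Fin n → ℝ} (hx : x ∈ cu n L) :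
    (fun i => tw L (TT L m x i)) = x := by
  funext i
  exact tw_fold hL (m i) ⟨hx.1 i, hx.2 i⟩

/-! ### summability -/

theorem summable_pi (f : ℤ → ℝ) (hf : ∀ k, 0 ≤ f k) (hs : Summable f) :
    ∀ n : ℕ, Summable (fun m : Fin n → ℤ => ∏ i, f (m i))
  | 0 => (hasSum_unique _).summable
  | n + 1 => by
    rw [← (Fin.consEquiv (fun _ : Fin (n + 1) => ℤ)).summable_iff]
    have h1 := Summable.mul_of_nonneg hs (summable_pi f hf hs n) hf
      (fun m => Finset.prod_nonneg fun i _ => hf (m i))
    refine h1.congr fun p => ?_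
    simp [Fin.prod_univ_succ, Fin.consEquiv]

theorem summable_exp {c : ℝ} (hc : 0 < c) : Summable (fun k : ℤ => Real.exp (-c * |(k : ℝ)|)) := by
  have h1 : Summable (fun k : ℕ => Real.exp (-c * (k : ℝ))) := by
    have h2 : Summable (fun k : ℕ => Real.exp (-c) ^ k) :=
      summable_geometric_of_lt_one (Real.exp_pos _).le (by
        have h3 := Real.exp_lt_exp.2 (neg_lt_zero.2 hc)
        rwa [Real.exp_zero] at h3)
    refine h2.congr fun k => ?_
    rw [← Real.exp_nat_mul, mul_comm]
  apply Summable.of_nat_of_neg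
  · refine h1.congr fun k => ?_
    rw [Int.cast_natCast, abs_of_nonneg (Nat.cast_nonneg k)]
  · refine h1.congr fun k => ?_
    rw [Int.cast_neg, Int.cast_natCast, abs_neg, abs_of_nonneg (Nat.cast_nonneg k)]

/-- the majorant -/
noncomputable def uu (n : ℕ) (b L : ℝ) (m : Fin n → ℤ) : ℝ :=
  ∏ i, Real.exp (-(2 * b * L) * |(m i : ℝ)|)

theorem uu_summable (n : ℕ) {b L : ℝ} (hb : 0 < b) (hL : 0 < L) : Summable (uu n b L) :=
  summable_pi _ (fun _ => (Real.exp_pos _).le) (summable_exp (by positivity)) n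

theorem uu_nonneg (n : ℕ) (b L : ℝ) (m : Fin n → ℤ) : 0 ≤ uu n b L m :=
  Finset.prod_nonneg fun _ _ => (Real.exp_pos _).le

theorem rho_le {ρ : (Fin n → ℝ) → ℝ} {A b L : ℝ} (hA : 0 ≤ A) (hb : 0 < b) (hL : 0 < L)
    (hρ : ∀ x, ρ x ≤ A * Real.exp (-b * ∑ i, |x i|)) (m : Fin n → ℤ) (x : Fin n → ℝ) :
    ρ (TT L m x) ≤ A * Real.exp (b * ∑ i, |x i|) * uu n b L m := by
  refine (hρ _).trans ?_
  rw [mul_assoc]
  apply mul_le_mul_of_nonneg_left _ hA
  unfold uu
  rw [← Real.exp_sum, ← Real.exp_add, Real.exp_le_exp]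
  have h1 : ∑ i, (2 * L * |(m i : ℝ)| - |x i|) ≤ ∑ i, |TT L m x i| := by
    apply Finset.sum_le_sum
    intro i _
    unfold TT
    have h2 : |2 * L * (m i : ℝ)| = 2 * L * |(m i : ℝ)| := by
      rw [abs_mul, abs_of_pos (by positivity : 0 < 2 * L)]
    have h3 : |sg (m i) * x i| = |x i| := by rw [abs_mul, abs_sg, one_mul]
    have h4 := abs_sub_abs_le_abs_sub (2 * L * (m i : ℝ)) (-(sg (m i) * x i))
    rw [abs_neg, h2, h3, sub_neg_eq_add] at h4
    exact h4
  have h2 : b * ∑ i, (2 * L * |(m i : ℝ)| - |x i|) =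
      -(b * ∑ i, |x i| + ∑ i, -(2 * b * L) * |(m i : ℝ)|) := by
    rw [Finset.sum_sub_distrib, ← Finset.mul_sum, ← Finset.mul_sum]
    ring
  have h3 := mul_le_mul_of_nonneg_left h1 hb.le
  rw [h2] at h3
  linarith

theorem int_exp_abs {b : ℝ} (hb : 0 < b) : Integrable (fun t : ℝ => Real.exp (-b * |t|)) := by
  rw [← integrableOn_univ, ← Iic_union_Ioi (a := (0 : ℝ))]
  apply IntegrableOn.union
  · refine (integrableOn_exp_mul_Iic hb 0).congr_fun (fun t ht => ?_) measurableSet_Iic
    rw [mem_Iic] at ht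
    simp only
    rw [abs_of_nonpos ht]
    ring_nf
  · refine (integrableOn_exp_mul_Ioi (neg_lt_zero.2 hb) 0).congr_fun (fun t ht => ?_)
      measurableSet_Ioi
    rw [mem_Ioi] at ht
    simp only
    rw [abs_of_pos ht]

theorem int_exp_pi (n : ℕ) {b : ℝ} (hb : 0 < b) :
    Integrable (fun x : Fin n → ℝ => Real.exp (-b * ∑ i, |x i|)) := by
  have h1 : Integrable (fun x : Fin n → ℝ => ∏ i, Real.exp (-b * |x i|)) := by
    rw [volume_pi]
    exact Integrable.fintype_prod (f := fun _ t => Real.exp (-b * |t|)) fun _ => int_exp_abs hb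
  refine h1.congr (Filter.Eventually.of_forall fun x => ?_)
  simp only
  rw [← Real.exp_sum, Finset.mul_sum]

theorem tw_cont (L : ℝ) : Continuous (tw L) := by
  unfold tw
  exact continuous_const.mul (Real.continuous_arcsin.comp (by fun_prop))

theorem tw_mem {L : ℝ} (hL : 0 < L) (t : ℝ) : -L ≤ tw L t ∧ tw L t ≤ L := by
  have hpi := Real.pi_pos
  have h1 := Real.arcsin_mem_Icc (Real.sin (Real.pi * t / (2 * L)))
  unfold tw
  have h2 : 0 ≤ 2 * L / Real.pi := by positivity
  constructor
  · have h3 := mul_le_mul_of_nonneg_left h1.1 h2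
    have h4 : 2 * L / Real.pi * -(Real.pi / 2) = -L := by field_simp
    linarith
  · have h3 := mul_le_mul_of_nonneg_left h1.2 h2
    have h4 : 2 * L / Real.pi * (Real.pi / 2) = L := by field_simp
    linarith

/-! ### the cells -/

/-- half-open cells -/
def SS (L : ℝ) (m : Fin n → ℤ) : Set (Fin n → ℝ) :=
  Set.pi univ fun i => Ico (2 * L * m i - L) (2 * L * m i + L)

theorem SS_disj {L : ℝ} (hL : 0 < L) : Pairwise (Function.onFun Disjoint (SS (n := n) L)) := by
  intro m m' hmm
  rw [Function.onFun, Set.disjoint_left]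
  intro x hx hx'
  apply hmm
  funext i
  have a := hx i (mem_univ i)
  have b := hx' i (mem_univ i)
  rw [mem_Ico] at a b
  have h1 : 2 * L * ((m i : ℝ) - m' i) < 2 * L := by linarith [a.1, a.2, b.1, b.2]
  have h2 : 2 * L * ((m' i : ℝ) - m i) < 2 * L := by linarith [a.1, a.2, b.1, b.2]
  have h3 : (m i : ℝ) - m' i < 1 := by nlinarith
  have h4 : (m' i : ℝ) - m i < 1 := by nlinarith
  have h5 : m i - m' i < 1 := by exact_mod_cast h3
  have h6 : m' i - m i < 1 := by exact_mod_cast h4
  omega

theorem SS_cover {L : ℝ} (hL : 0 < L) : ⋃ m, SS (n := n) L m = univ := by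
  rw [eq_univ_iff_forall]
  intro x
  rw [mem_iUnion]
  refine ⟨fun i => ⌊(x i + L) / (2 * L)⌋, fun i _ => ?_⟩
  rw [mem_Ico]
  have h1 := Int.floor_le ((x i + L) / (2 * L))
  have h2 := Int.lt_floor_add_one ((x i + L) / (2 * L))
  rw [le_div_iff₀ (by positivity)] at h1
  rw [div_lt_iff₀ (by positivity)] at h2
  constructor <;> nlinarith

theorem int_SS {L : ℝ} (hL : 0 < L) (ρ G : (Fin n → ℝ) → ℝ) (m : Fin n → ℤ) :
    ∫ x in SS L m, ρ x * G (fun i => tw L (x i)) = ∫ x in cu n L, ρ (TT L m x) * G x := by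
  have h1 : SS L m =ᵐ[volume] Icc (fun i => 2 * L * (m i : ℝ) - L) (fun i => 2 * L * m i + L) := by
    rw [volume_pi]
    exact Measure.univ_pi_Ico_ae_eq_Icc
  rw [setIntegral_congr_set h1]
  have h2 := (TT_pres L m).setIntegral_preimage_emb
    ((TT_cont L m).measurableEmbedding (TT_inj L m)) (fun x => ρ x * G (fun i => tw L (x i)))
    (Icc (fun i => 2 * L * (m i : ℝ) - L) (fun i => 2 * L * m i + L))
  rw [← h2, TT_pre]
  apply setIntegral_congr_fun measurableSet_Icc
  intro x hx
  simp only
  rw [tw_TT hL m hx]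

theorem t_A2 : S_A2 := by
  intro n ρ A b L hc hpos hb hρ hL hsym
  have hA : 0 ≤ A := by
    have h1 := (hpos 0).trans_le (hρ 0)
    exact (pos_of_mul_pos_left h1 (Real.exp_pos _).le).le
  have hsum : ∀ x, Summable (fun m : Fin n → ℤ => ρ (TT L m x)) := fun x =>
    Summable.of_nonneg_of_le (fun m => (hpos _).le) (fun m => rho_le hA hb hL hρ m x)
      ((uu_summable n hb hL).mul_left _)
  have hle : ∀ x, ρ x ≤ ∑' m : Fin n → ℤ, ρ (TT L m x) := by
    intro x
    have h1 := (hsum x).le_tsum 0 (fun m _ => (hpos _).le)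
    rw [TT_zero] at h1
    exact h1
  refine ⟨fun x => ∑' m : Fin n → ℤ, ρ (TT L m x), ?_, fun x => (hpos x).trans_le (hle x), ?_, hle, ?_⟩
  · rw [continuous_iff_continuousAt]
    intro x₀
    set R : ℝ := ∑ i, |x₀ i| + 1 with hR
    have hU : IsOpen {x : Fin n → ℝ | ∑ i, |x i| < R} :=
      isOpen_lt (by fun_prop) continuous_const
    have hon : ContinuousOn (fun x => ∑' m : Fin n → ℤ, ρ (TT L m x))
        {x : Fin n → ℝ | ∑ i, |x i| < R} := by
      apply continuousOn_tsum (u := fun m => A * Real.exp (b * R) * uu n b L m)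
      · intro m
        exact (hc.comp (TT_cont L m)).continuousOn
      · exact (uu_summable n hb hL).mul_left _
      · intro m x hx
        rw [Real.norm_of_nonneg (hpos _).le]
        refine (rho_le hA hb hL hρ m x).trans ?_
        apply mul_le_mul_of_nonneg_right _ (uu_nonneg n b L m)
        apply mul_le_mul_of_nonneg_left _ hA
        rw [Real.exp_le_exp]
        exact mul_le_mul_of_nonneg_left (le_of_lt hx) hb.le
    refine hon.continuousAt (hU.mem_nhds ?_)
    show ∑ i, |x₀ i| < R
    rw [hR]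
    linarith
  · intro x σ
    have h1 := (Equiv.arrowCongr σ.symm (Equiv.refl ℤ)).tsum_eq
      (fun m : Fin n → ℤ => ρ (TT L m (x ∘ σ)))
    show ∑' m : Fin n → ℤ, ρ (TT L m (x ∘ σ)) = ∑' m : Fin n → ℤ, ρ (TT L m x)
    rw [← h1]
    apply tsum_congr
    intro m
    rw [← hsym (TT L m x) σ]
    congr 1
  · intro G hG
    obtain ⟨M, hM⟩ := (isCompact_Icc (a := fun _ : Fin n => -L)
      (b := fun _ : Fin n => L)).exists_bound_of_continuousOn hG.continuousOn
    have hM0 : 0 ≤ M := (norm_nonneg _).trans (hM 0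
      ⟨fun i => by simp only [Pi.zero_apply]; linarith, fun i => by simp only [Pi.zero_apply]; linarith⟩)
    have htw : Continuous fun x : Fin n → ℝ => fun i => tw L (x i) :=
      continuous_pi fun i => (tw_cont L).comp (continuous_apply i)
    have hint : Integrable (fun x : Fin n → ℝ => ρ x * G (fun i => tw L (x i))) := by
      refine Integrable.mono' (((int_exp_pi n hb).const_mul A).mul_const M)
        (hc.mul (hG.comp htw)).aestronglyMeasurable (Filter.Eventually.of_forall fun x => ?_)
      rw [norm_mul, Real.norm_of_nonneg (hpos x).le]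
      exact mul_le_mul (hρ x) (hM _ ⟨fun i => (tw_mem hL _).1, fun i => (tw_mem hL _).2⟩)
        (norm_nonneg _) (mul_nonneg hA (Real.exp_pos _).le)
    have h1 : HasSum (fun m : Fin n → ℤ => ∫ x in cu n L, ρ (TT L m x) * G x)
        (∫ x, ρ x * G (fun i => tw L (x i))) := by
      have h2 := hasSum_integral_iUnion (μ := volume) (s := SS (n := n) L)
        (f := fun x => ρ x * G (fun i => tw L (x i)))
        (fun m => MeasurableSet.univ_pi fun i => measurableSet_Ico) (SS_disj hL) hint.integrableOn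
      rw [SS_cover hL, setIntegral_univ] at h2
      have e : (fun m : Fin n → ℤ => ∫ x in SS L m, ρ x * G (fun i => tw L (x i))) =
          fun m : Fin n → ℤ => ∫ x in cu n L, ρ (TT L m x) * G x :=
        funext fun m => int_SS hL ρ G m
      rw [e] at h2
      exact h2
    have h3 : HasSum (fun m : Fin n → ℤ => ∫ x in cu n L, ρ (TT L m x) * G x)
        (∫ x in cu n L, (∑' m : Fin n → ℤ, ρ (TT L m x)) * G x) := by
      apply hasSum_integral_of_dominated_convergence
        (fun m _ => A * Real.exp (b * (n * L)) * uu n b L m * M)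
      · intro m
        exact ((hc.comp (TT_cont L m)).mul hG).aestronglyMeasurable
      · intro m
        refine ae_restrict_of_forall_mem measurableSet_Icc fun x hx => ?_
        rw [norm_mul, Real.norm_of_nonneg (hpos _).le]
        refine mul_le_mul ?_ (hM x hx) (norm_nonneg _)
          (mul_nonneg (mul_nonneg hA (Real.exp_pos _).le) (uu_nonneg n b L m))
        refine (rho_le hA hb hL hρ m x).trans ?_
        apply mul_le_mul_of_nonneg_right _ (uu_nonneg n b L m)
        apply mul_le_mul_of_nonneg_left _ hA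
        rw [Real.exp_le_exp]
        apply mul_le_mul_of_nonneg_left _ hb.le
        calc ∑ i, |x i| ≤ ∑ _i : Fin n, L :=
              Finset.sum_le_sum fun i _ => abs_le.2 ⟨hx.1 i, hx.2 i⟩
          _ = n * L := by simp
      · exact Filter.Eventually.of_forall fun x =>
          ((uu_summable n hb hL).mul_left _).mul_right _
      · have hf : IsFiniteMeasure (volume.restrict (cu n L)) :=
          ⟨by rw [Measure.restrict_apply_univ]; exact isCompact_Icc.measure_lt_top⟩
        exact integrable_const _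
      · exact Filter.Eventually.of_forall fun x => (hsum x).hasSum.mul_right _
    exact h1.unique h3

end Pool.Agent.J4H74.XC.A2
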