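import Pool.Agent.J4H58.XC.Stm3

/-!
# XC, piece X9a: the transition function
-/

set_option autoImplicit false

namespace Pool.Agent.J4H74.XC

open MeasureTheory Set Filter Topology

/-- data of the transition function -/
structure Tr (h th : ℝ → ℝ) (η : ℝ) : Prop where
  hc : Continuous h
  hd : ∀ t, HasDerivAt th (h t) t
  h0 : ∀ t, 0 ≤ h t
  h1 : ∀ t, h t ≤ 1 + η
  hl : ∀ t, t ≤ 0 → h t = 0
  hr : ∀ t, 1 ≤ t → h t = 0
  tl : ∀ t, t ≤ 0 → th t = 0
  tr : ∀ t, 1 ≤ t → th t = 1
  t0 : ∀ t, 0 ≤ th t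
  t1 : ∀ t, th t ≤ 1
  ts : ∀ t, th (1 - t) = 1 - th t

theorem exists_tr (η : ℝ) (hη : 0 < η) : ∃ h th : ℝ → ℝ, Tr h th η := by
  set e : ℝ := min (1 / 4) (η / (2 * (1 + η))) with he
  have he0 : 0 < e := lt_min (by norm_num) (by positivity)
  have he1 : e ≤ 1 / 4 := min_le_left _ _
  have he2 : 1 ≤ (1 + η) * (1 - 2 * e) := by
    have h1 : e ≤ η / (2 * (1 + η)) := min_le_right _ _
    rw [le_div_iff₀ (by positivity)] at h1
    nlinarith
  set k : ℝ → ℝ := fun t => max 0 (min 1 (min (t / e) ((1 - t) / e))) with hk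
  have hkc : Continuous k := by fun_prop
  have hk0 : ∀ t, 0 ≤ k t := fun t => le_max_left _ _
  have hk1 : ∀ t, k t ≤ 1 := fun t => max_le zero_le_one (min_le_left _ _)
  have hkl : ∀ t, t ≤ 0 → k t = 0 := by
    intro t ht
    apply max_eq_left
    refine (min_le_right _ _).trans ((min_le_left _ _).trans ?_)
    exact div_nonpos_of_nonpos_of_nonneg ht he0.le
  have hkr : ∀ t, 1 ≤ t → k t = 0 := by
    intro t ht
    apply max_eq_left
    refine (min_le_right _ _).trans ((min_le_right _ _).trans ?_)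
    exact div_nonpos_of_nonpos_of_nonneg (by linarith) he0.le
  have hks : ∀ t, k (1 - t) = k t := by
    intro t
    simp only [hk]
    rw [sub_sub_cancel, min_comm ((1 - t) / e)]
  have hkm : ∀ t, e ≤ t → t ≤ 1 - e → k t = 1 := by
    intro t h1 h2
    simp only [hk]
    rw [min_eq_left, max_eq_right zero_le_one]
    apply le_min
    · rw [one_le_div he0]
      exact h1
    · rw [one_le_div he0]
      linarith
  set I : ℝ := ∫ t in (0 : ℝ)..1, k t with hI
  have hI1 : 1 - 2 * e ≤ I := by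
    have h1 : ∫ t in e..(1 - e), k t = 1 - 2 * e := by
      have h2 : ∫ t in e..(1 - e), k t = ∫ t in e..(1 - e), (1 : ℝ) := by
        apply intervalIntegral.integral_congr
        intro t ht
        rw [uIcc_of_le (by linarith)] at ht
        exact hkm t ht.1 ht.2
      rw [h2]
      simp
      ring
    rw [← h1]
    exact intervalIntegral.integral_mono_interval he0.le (by linarith) (by linarith)
      (Filter.Eventually.of_forall hk0) (hkc.intervalIntegrable _ _)
  have hI0 : 0 < I := by linarith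
  have hIi : I⁻¹ ≤ 1 + η := by
    rw [inv_le_comm₀ hI0 (by positivity)]
    have h1 : (1 + η)⁻¹ ≤ 1 - 2 * e := by
      rw [inv_le_iff_one_le_mul₀ (by positivity)]
      linarith
    linarith
  set th : ℝ → ℝ := fun t => I⁻¹ * ∫ s in (0 : ℝ)..t, k s with hth
  have hd : ∀ t, HasDerivAt th (I⁻¹ * k t) t := by
    intro t
    exact ((hkc.integral_hasStrictDerivAt 0 t).hasDerivAt).const_mul _
  have hmono : Monotone th := by
    apply monotone_of_deriv_nonneg
    · exact fun t => (hd t).differentiableAt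
    · intro t
      rw [(hd t).deriv]
      exact mul_nonneg (inv_nonneg.2 hI0.le) (hk0 t)
  have tl : ∀ t, t ≤ 0 → th t = 0 := by
    intro t ht
    simp only [hth]
    have h2 : ∫ s in (0 : ℝ)..t, k s = ∫ s in (0 : ℝ)..t, (0 : ℝ) := by
      apply intervalIntegral.integral_congr
      intro s hs
      rw [uIcc_of_ge ht] at hs
      exact hkl s hs.2
    rw [h2]
    simp
  have tr : ∀ t, 1 ≤ t → th t = 1 := by
    intro t ht
    simp only [hth]
    have h2 : ∫ s in (1 : ℝ)..t, k s = ∫ s in (1 : ℝ)..t, (0 : ℝ) := by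
      apply intervalIntegral.integral_congr
      intro s hs
      rw [uIcc_of_le ht] at hs
      exact hkr s hs.1
    rw [← intervalIntegral.integral_add_adjacent_intervals (hkc.intervalIntegrable 0 1)
      (hkc.intervalIntegrable 1 t), h2]
    simp only [intervalIntegral.integral_zero, add_zero]
    exact inv_mul_cancel₀ hI0.ne'
  refine ⟨fun t => I⁻¹ * k t, th, ⟨by fun_prop, hd, ?_, ?_, ?_, ?_, tl, tr, ?_, ?_, ?_⟩⟩
  · intro t
    exact mul_nonneg (inv_nonneg.2 hI0.le) (hk0 t)
  · intro t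
    calc I⁻¹ * k t ≤ I⁻¹ * 1 := mul_le_mul_of_nonneg_left (hk1 t) (inv_nonneg.2 hI0.le)
      _ ≤ 1 + η := by rw [mul_one]; exact hIi
  · intro t ht
    simp only [hkl t ht, mul_zero]
  · intro t ht
    simp only [hkr t ht, mul_zero]
  · intro t
    rcases le_total t 0 with h | h
    · rw [tl t h]
    · rw [← tl 0 le_rfl]
      exact hmono h
  · intro t
    rcases le_total 1 t with h | h
    · rw [tr t h]
    · rw [← tr 1 le_rfl]
      exact hmono h
  · intro t
    have h1 : ∀ s, HasDerivAt (fun s => th (1 - s) + th s) 0 s := by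
      intro s
      have h2 : HasDerivAt (fun s => th (1 - s)) (-(I⁻¹ * k (1 - s))) s :=
        (hd (1 - s)).comp_const_sub 1 s
      have h4 := h2.add (hd s)
      rw [hks, neg_add_cancel] at h4
      exact h4
    have h2 := is_const_of_deriv_eq_zero (fun s => (h1 s).differentiableAt)
      (fun s => (h1 s).deriv) t 0
    simp only [sub_zero] at h2
    rw [tr 1 le_rfl, tl 0 le_rfl] at h2
    linarith

theorem Tr.cont {h th : ℝ → ℝ} {η : ℝ} (T : Tr h th η) : Continuous th :=
  continuous_iff_continuousAt.2 fun t => (T.hd t).continuousAt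

theorem Tr.half {h th : ℝ → ℝ} {η : ℝ} (T : Tr h th η) : ∫ t in (0 : ℝ)..1, th t = 1 / 2 := by
  have h1 : ∫ t in (0 : ℝ)..1, th (1 - t) = ∫ t in (0 : ℝ)..1, th t := by
    rw [intervalIntegral.integral_comp_sub_left (fun t => th t) 1]
    simp
  have h2 : ∫ t in (0 : ℝ)..1, th (1 - t) = ∫ t in (0 : ℝ)..1, (1 - th t) := by
    apply intervalIntegral.integral_congr
    intro t _
    exact T.ts t
  rw [intervalIntegral.integral_sub (by simp) (T.cont.intervalIntegrable _ _)] at h2
  simp only [intervalIntegral.integral_const, sub_zero, smul_eq_mul, mul_one] at h2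
  linarith

theorem Tr.half' {h th : ℝ → ℝ} {η : ℝ} (T : Tr h th η) :
    ∫ t in (0 : ℝ)..1, (1 - th t) = 1 / 2 := by
  rw [intervalIntegral.integral_sub (by simp) (T.cont.intervalIntegrable _ _), T.half]
  simp
  norm_num

theorem Tr.sq {h th : ℝ → ℝ} {η : ℝ} (T : Tr h th η) :
    ∫ t in (0 : ℝ)..1, h t ^ 2 ≤ (1 + η) ^ 2 := by
  have h1 : ∫ t in (0 : ℝ)..1, h t ^ 2 ≤ ∫ t in (0 : ℝ)..1, (1 + η) ^ 2 := by
    apply intervalIntegral.integral_mono_on zero_le_one
    · exact (T.hc.pow 2).intervalIntegrable _ _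
    · simp
    · intro t _
      exact pow_le_pow_left₀ (T.h0 t) (T.h1 t) 2
  simpa using h1

theorem Tr.sq0 {h th : ℝ → ℝ} {η : ℝ} (_ : Tr h th η) :
    0 ≤ ∫ t in (0 : ℝ)..1, h t ^ 2 :=
  intervalIntegral.integral_nonneg zero_le_one fun _ _ => sq_nonneg _

theorem Tr.smooth {h th : ℝ → ℝ} {η : ℝ} (T : Tr h th η) : ContDiff ℝ 1 th := by
  rw [contDiff_one_iff_deriv]
  refine ⟨fun t => (T.hd t).differentiableAt, ?_⟩
  have h1 : deriv th = h := funext fun t => (T.hd t).deriv
  rw [h1]
  exact T.hc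

/-- integral over a cell in dimension one -/
theorem int_cell (F : ℝ → ℝ) (N : ℕ) (hN : 0 < N) (m : ℕ) :
    ∫ s in Icc ((m : ℝ) / N) (((m + 1 : ℕ) : ℝ) / N), F (N * s - m) =
      (N : ℝ)⁻¹ * ∫ t in (0 : ℝ)..1, F t := by
  have hN0 : (0 : ℝ) < N := by exact_mod_cast hN
  have hle : (m : ℝ) / N ≤ ((m + 1 : ℕ) : ℝ) / N := by
    apply div_le_div_of_nonneg_right _ hN0.le
    push_cast
    linarith
  rw [integral_Icc_eq_integral_Ioc, ← intervalIntegral.integral_of_le hle,
    intervalIntegral.integral_comp_mul_sub (fun t => F t) hN0.ne' (m : ℝ), smul_eq_mul]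
  congr 2
  · field_simp
    ring
  · push_cast
    field_simp
    ring

end Pool.Agent.J4H74.XC
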